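import Mathlib
import Pool.Agent.Lib.P4a7640C.Base

/-!
# Twisted characters: definitions
-/

open Finset Filter Topology
open Pool.Agent.Lib.P4a7640 Pool.Agent.Lib.P4a7640C

namespace Pool.Agent.Lib.P4a7640W

/-- `n^(it)` -/
noncomputable def tw (t : ℝ) (n : ℕ) : ℂ :=
  Complex.exp (((t * Real.log n : ℝ) : ℂ) * Complex.I)

/-- the complex function `U` at the primes `≤ N^(1/c)`, the character `ψ` at the primes above -/
noncomputable def vU (c : ℕ) (U : ℕ → ℂ) {q : ℕ} (ψ : DirichletCharacter ℂ q) (N n : ℕ) : ℂ :=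
  U n * ∏ p ∈ n.primeFactors.filter (fun p => N < p ^ c),
    ((starRingEnd ℂ) (U p) * ψ (p : ZMod q))

/-- `u` at the primes `≤ N^(1/c)`, the twisted character `ψ(p) p^(it)` at the primes above -/
noncomputable def vt (c : ℕ) (u : ℕ → ℤˣ) {q : ℕ} (ψ : DirichletCharacter ℂ q) (t : ℝ)
    (N n : ℕ) : ℂ :=
  sgC (u n) * ∏ p ∈ n.primeFactors.filter (fun p => N < p ^ c),
    (sgC (u p) * ψ (p : ZMod q) * tw t p)

/-- `∏ u(p) conj (χ(p) p^(it))` over the prime factors `p > N^(1/c)` of `n` -/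
noncomputable def wt (c : ℕ) (u : ℕ → ℤˣ) {q : ℕ} (χ : DirichletCharacter ℂ q) (t : ℝ)
    (N n : ℕ) : ℂ :=
  ∏ p ∈ n.primeFactors.filter (fun p => N < p ^ c),
    (sgC (u p) * (starRingEnd ℂ) (χ (p : ZMod q) * tw t p))

/-- `∑ (1 - Re (U(p) conj ψ(p)))/p` over the primes in `(y, N]` -/
noncomputable def DU (U : ℕ → ℂ) {q : ℕ} (ψ : DirichletCharacter ℂ q) (y N : ℕ) : ℝ :=
  ∑ p ∈ (Ioc y N).filter Nat.Prime, (1 - (U p * (starRingEnd ℂ) (ψ (p : ZMod q))).re) / (p : ℝ)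

/-- the monomial `∏ v(n + t i) ∏ conj v(n + t' i)` -/
noncomputable def monoT (c : ℕ) (u : ℕ → ℤˣ) {q : ℕ} (χ : DirichletCharacter ℂ q) (t : ℝ) (N : ℕ)
    {a b : ℕ} (τ : Fin a → ℕ) (τ' : Fin b → ℕ) (n : ℕ) : ℂ :=
  (∏ i, vt c u χ t N (n + τ i)) * ∏ i, (starRingEnd ℂ) (vt c u χ t N (n + τ' i))

/-- the linear form `∑ x_j v(n + j)` -/
noncomputable def ZT (c : ℕ) (u : ℕ → ℤˣ) {q : ℕ} (χ : DirichletCharacter ℂ q) (t : ℝ) (N : ℕ)
    (J : Finset ℕ) (x : ℕ → ℝ) (n : ℕ) : ℂ := ∑ j ∈ J, (x j : ℂ) * vt c u χ t N (n + j)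

end Pool.Agent.Lib.P4a7640W
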