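import Mathlib
import Pool.Agent.Lib.P4a7640W.Base
import Pool.Agent.Lib.P4a7640C.VcB
import Pool.Agent.Lib.P4a7640C.PowV

/-!
# Basic properties of `tw`, `vU`, `vt`, `wt`
-/

open Finset Filter Topology
open Pool.Agent.Lib.P4a7640 Pool.Agent.Lib.P4a7640C

namespace Pool.Agent.Lib.P4a7640W

open Pool.Agent.Lib.P4a7640C.VcBAux

theorem norm_tw (t : ℝ) (n : ℕ) : ‖tw t n‖ = 1 := by
  unfold tw
  exact Complex.norm_exp_ofReal_mul_I _

theorem tw_zero (n : ℕ) : tw 0 n = 1 := by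
  unfold tw
  simp

theorem tw_one (t : ℝ) : tw t 1 = 1 := by
  unfold tw
  simp

theorem tw_mul (t : ℝ) {m n : ℕ} (hm : 0 < m) (hn : 0 < n) : tw t (m * n) = tw t m * tw t n := by
  unfold tw
  rw [← Complex.exp_add]
  congr 1
  push_cast
  rw [← Complex.ofReal_natCast m, ← Complex.ofReal_natCast n, ← Complex.ofReal_mul,
    Real.log_mul (by exact_mod_cast hm.ne') (by exact_mod_cast hn.ne')]
  push_cast
  ring

theorem tw_add (s t : ℝ) (n : ℕ) : tw (s + t) n = tw s n * tw t n := by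
  unfold tw
  rw [← Complex.exp_add]
  congr 1
  push_cast
  ring

theorem conj_tw (t : ℝ) (n : ℕ) : (starRingEnd ℂ) (tw t n) = tw (-t) n := by
  unfold tw
  rw [← Complex.exp_conj]
  congr 1
  rw [map_mul, Complex.conj_ofReal, Complex.conj_I]
  push_cast
  ring

theorem tw_conj_mul (t : ℝ) (n : ℕ) : tw t n * tw (-t) n = 1 := by
  rw [← tw_add, add_neg_cancel, tw_zero]

theorem tw_pow (t : ℝ) (k : ℕ) (n : ℕ) : tw t n ^ k = tw (k * t) n := by
  unfold tw
  rw [← Complex.exp_nat_mul]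
  congr 1
  push_cast
  ring

theorem vU_mulC (c : ℕ) {U : ℕ → ℂ} (hU : MulC U) {q : ℕ} (ψ : DirichletCharacter ℂ q) (N : ℕ) :
    MulC (vU c U ψ N) := by
  refine ⟨?_, ?_, ?_⟩
  · unfold vU
    rw [hU.1]
    simp
  · intro m n hm hn hco
    unfold vU
    rw [hU.2.1 m n hm hn hco, hco.primeFactors_mul, Finset.filter_union, Finset.prod_union]
    · ring
    · exact Finset.disjoint_filter_filter hco.disjoint_primeFactors
  · intro n
    unfold vU
    rw [norm_mul]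
    have h1 : ‖∏ p ∈ n.primeFactors.filter (fun p => N < p ^ c),
        ((starRingEnd ℂ) (U p) * ψ (p : ZMod q))‖ ≤ 1 := by
      refine norm_prod_le _ _ fun p _ => ?_
      rw [norm_mul, Complex.norm_conj]
      have h2 := hU.2.2 p
      have h3 := DirichletCharacter.norm_le_one ψ (p : ZMod q)
      have h4 := norm_nonneg (U p)
      have h5 := norm_nonneg (ψ (p : ZMod q))
      nlinarith
    have h6 := hU.2.2 n
    have h7 := norm_nonneg (U n)
    have h8 := norm_nonneg (∏ p ∈ n.primeFactors.filter (fun p => N < p ^ c),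
        ((starRingEnd ℂ) (U p) * ψ (p : ZMod q)))
    nlinarith

theorem vU_low {c : ℕ} {U : ℕ → ℂ} {q : ℕ} (ψ : DirichletCharacter ℂ q) {N p : ℕ} (hp : p.Prime)
    (h : p ^ c ≤ N) : vU c U ψ N p = U p := by
  unfold vU
  rw [hp.primeFactors, Finset.filter_singleton, if_neg (not_lt.2 h)]
  simp

theorem vU_top {c : ℕ} {U : ℕ → ℂ} (hU : ∀ n, ‖U n‖ = 1) {q : ℕ} (ψ : DirichletCharacter ℂ q)
    {N p : ℕ} (hp : p.Prime) (h : N < p ^ c) : vU c U ψ N p = ψ (p : ZMod q) := by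
  unfold vU
  rw [hp.primeFactors, Finset.filter_singleton, if_pos h, Finset.prod_singleton, ← mul_assoc,
    Complex.mul_conj, Complex.normSq_eq_norm_sq, hU p]
  simp

theorem norm_vt_le (c : ℕ) (u : ℕ → ℤˣ) {q : ℕ} (ψ : DirichletCharacter ℂ q) (t : ℝ) (N n : ℕ) :
    ‖vt c u ψ t N n‖ ≤ 1 := by
  unfold vt
  rw [norm_mul, norm_sgC, one_mul]
  refine norm_prod_le _ _ fun p _ => ?_
  rw [norm_mul, norm_mul, norm_sgC, one_mul, norm_tw, mul_one]
  exact DirichletCharacter.norm_le_one ψ _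

theorem norm_wt_le (c : ℕ) (u : ℕ → ℤˣ) {q : ℕ} (χ : DirichletCharacter ℂ q) (t : ℝ) (N n : ℕ) :
    ‖wt c u χ t N n‖ ≤ 1 := by
  unfold wt
  refine norm_prod_le _ _ fun p _ => ?_
  rw [norm_mul, norm_sgC, one_mul, RCLike.norm_conj, norm_mul, norm_tw, mul_one]
  exact DirichletCharacter.norm_le_one χ _

theorem sgC_conj_vt (c : ℕ) (u : ℕ → ℤˣ) {q : ℕ} (χ : DirichletCharacter ℂ q) (t : ℝ) (N n : ℕ) :
    sgC (u n) * (starRingEnd ℂ) (vt c u χ t N n) = wt c u χ t N n := by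
  unfold vt wt
  rw [map_mul, conj_sgC, ← mul_assoc, sgC_sq, one_mul, map_prod]
  refine Finset.prod_congr rfl fun p _ => ?_
  rw [mul_assoc, map_mul, conj_sgC]

/-- `vt = n^(it) vU` with `U n = u n * n^(-it)` -/
theorem vt_eq (c : ℕ) (u : ℕ → ℤˣ) {q : ℕ} (ψ : DirichletCharacter ℂ q) (t : ℝ) (N n : ℕ) :
    vt c u ψ t N n = vU c (fun n => sgC (u n) * tw (-t) n) ψ N n * tw t n := by
  unfold vt vU
  have h1 : ∀ p ∈ n.primeFactors.filter (fun p => N < p ^ c),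
      (starRingEnd ℂ) (sgC (u p) * tw (-t) p) * ψ (p : ZMod q) =
        sgC (u p) * ψ (p : ZMod q) * tw t p := by
    intro p _
    rw [map_mul, conj_sgC, conj_tw, neg_neg]
    ring
  rw [Finset.prod_congr rfl h1]
  have h2 := tw_conj_mul t n
  calc _ = sgC (u n) * (∏ p ∈ n.primeFactors.filter (fun p => N < p ^ c),
        (sgC (u p) * ψ (p : ZMod q) * tw t p)) * (tw t n * tw (-t) n) := by rw [h2, mul_one]
    _ = _ := by ring

theorem mulC_U {u : ℕ → ℤˣ} (hu : MultS u) (s : ℝ) : MulC fun n => sgC (u n) * tw s n := by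
  refine ⟨?_, ?_, ?_⟩
  · show sgC (u 1) * tw s 1 = 1
    rw [hu.map_one, tw_one]
    simp [sgC]
  · intro m n hm hn hco
    show sgC (u (m * n)) * tw s (m * n) = sgC (u m) * tw s m * (sgC (u n) * tw s n)
    rw [hu m n hm hn hco, sgC_mul, tw_mul s hm hn]
    ring
  · intro n
    show ‖sgC (u n) * tw s n‖ ≤ 1
    rw [norm_mul, norm_sgC, norm_tw, one_mul]

theorem norm_U (u : ℕ → ℤˣ) (s : ℝ) (n : ℕ) : ‖sgC (u n) * tw s n‖ = 1 := by
  rw [norm_mul, norm_sgC, norm_tw, one_mul]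

theorem vt_pow {c : ℕ} (u : ℕ → ℤˣ) {q : ℕ} (hq : 0 < q) (χ : DirichletCharacter ℂ q) (t : ℝ)
    {N : ℕ} (hN : q ^ c ≤ N) (a b n : ℕ) :
    vt c u χ t N n ^ a * (starRingEnd ℂ) (vt c u χ t N n) ^ b =
      vt c (fun n => u n ^ (a + b)) (χ ^ a * χ⁻¹ ^ b) (((a:ℝ) - b) * t) N n := by
  unfold vt
  rw [map_mul, map_prod, mul_pow, mul_pow, ← Finset.prod_pow, ← Finset.prod_pow]
  have e : sgC (u n) ^ a * (∏ p ∈ n.primeFactors.filter (fun p => N < p ^ c),
        (sgC (u p) * χ (p : ZMod q) * tw t p) ^ a) *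
      ((starRingEnd ℂ) (sgC (u n)) ^ b * ∏ p ∈ n.primeFactors.filter (fun p => N < p ^ c),
        (starRingEnd ℂ) (sgC (u p) * χ (p : ZMod q) * tw t p) ^ b) =
      (sgC (u n) ^ a * (starRingEnd ℂ) (sgC (u n)) ^ b) *
      ∏ p ∈ n.primeFactors.filter (fun p => N < p ^ c),
        ((sgC (u p) * χ (p : ZMod q) * tw t p) ^ a *
          (starRingEnd ℂ) (sgC (u p) * χ (p : ZMod q) * tw t p) ^ b) := by
    rw [Finset.prod_mul_distrib]
    ring
  rw [e, PowVAux.conj_sgC_pow]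
  congr 1
  refine Finset.prod_congr rfl fun p hp => ?_
  obtain ⟨hp1, hp2⟩ := Finset.mem_filter.1 hp
  have hpp : p.Prime := Nat.prime_of_mem_primeFactors hp1
  have hcop : p.Coprime q := by
    rw [Nat.Prime.coprime_iff_not_dvd hpp]
    intro hd
    have h1 : p ≤ q := Nat.le_of_dvd hq hd
    have h2 : p ^ c ≤ q ^ c := Nat.pow_le_pow_left h1 c
    omega
  have hun : ((ZMod.unitOfCoprime p hcop : (ZMod q)ˣ) : ZMod q) = (p : ZMod q) :=
    ZMod.coe_unitOfCoprime p hcop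
  set U : (ZMod q)ˣ := ZMod.unitOfCoprime p hcop with hU
  have h4 : tw t p ^ a * (starRingEnd ℂ) (tw t p) ^ b = tw (((a:ℝ) - b) * t) p := by
    rw [conj_tw, tw_pow, tw_pow, ← tw_add]
    congr 1
    ring
  rw [← hun, map_mul, map_mul, mul_pow, mul_pow, mul_pow, mul_pow]
  have h3 : (χ ^ a * χ⁻¹ ^ b) (U : ZMod q) = χ U ^ a * (starRingEnd ℂ) (χ U) ^ b := by
    rw [MulChar.mul_apply, MulChar.pow_apply_coe, MulChar.pow_apply_coe,
      MulChar.inv_apply_eq_inv', Complex.inv_eq_conj (χ.unit_norm_eq_one U)]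
  rw [h3, ← PowVAux.conj_sgC_pow, ← h4]
  ring

end Pool.Agent.Lib.P4a7640W
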