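import Mathlib
import Pool.Agent.Lib.P4a7640W.Base
import Pool.Agent.Lib.P4a7640W.TwB
import Pool.Agent.Lib.P4a7640C.CorrC

/-!
# Correlations at natural averages, complex multiplicative functions
-/

open Finset Filter Topology
open Pool.Agent.Lib.P4a7640 Pool.Agent.Lib.P4a7640D Pool.Agent.Lib.P4a7640T
open Pool.Agent.Lib.P4a7640E Pool.Agent.Lib.P4a7640G Pool.Agent.Lib.P4a7640C

namespace Pool.Agent.Lib.P4a7640W

namespace CorrUAux

open CorrCAux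

theorem norm_termU_le {U : ℕ → ℂ} (hU : ∀ n, ‖U n‖ = 1) (p : ℕ) {q : ℕ}
    (ψ : DirichletCharacter ℂ q) (a : ZMod q) : ‖U p * (starRingEnd ℂ) (ψ a)‖ ≤ 1 := by
  rw [norm_mul, hU, one_mul, Complex.norm_conj]
  exact DirichletCharacter.norm_le_one ψ a

theorem DU_le_two {U : ℕ → ℂ} (hU : ∀ n, ‖U n‖ = 1) {q : ℕ} (ψ : DirichletCharacter ℂ q) (z : ℕ) :
    DU U ψ 0 z ≤ 2 * z := by
  unfold DU
  calc ∑ p ∈ (Finset.Ioc 0 z).filter Nat.Prime,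
        (1 - (U p * (starRingEnd ℂ) (ψ (p : ZMod q))).re) / (p : ℝ)
      ≤ ∑ p ∈ (Finset.Ioc 0 z).filter Nat.Prime, (2:ℝ) := by
        refine Finset.sum_le_sum fun p hp => ?_
        have hp1 : (1:ℝ) ≤ p := by
          have := (mem_filter.1 hp).2.one_le
          exact_mod_cast this
        rw [div_le_iff₀ (by linarith)]
        have h1 := norm_termU_le hU p ψ (p : ZMod q)
        have h2 := Complex.abs_re_le_norm (U p * (starRingEnd ℂ) (ψ (p : ZMod q)))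
        have h3 := (abs_le.1 (h2.trans h1)).1
        linarith
    _ ≤ ∑ p ∈ Finset.Ioc 0 z, (2:ℝ) :=
        Finset.sum_le_sum_of_subset_of_nonneg (Finset.filter_subset _ _)
          (fun _ _ _ => by norm_num)
    _ = 2 * z := by
        rw [Finset.sum_const, Nat.card_Ioc]
        simp
        ring

theorem DU_add (U : ℕ → ℂ) {q : ℕ} (ψ : DirichletCharacter ℂ q) {z Y : ℕ} (h : z ≤ Y) :
    DU U ψ 0 Y = DU U ψ 0 z + DU U ψ z Y := by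
  unfold DU
  rw [← Finset.sum_union]
  · congr 1
    ext p
    simp only [Finset.mem_filter, Finset.mem_Ioc, Finset.mem_union]
    constructor
    · rintro ⟨⟨h1, h2⟩, h3⟩
      rcases Nat.lt_or_ge z p with h4 | h4
      · exact Or.inr ⟨⟨h4, h2⟩, h3⟩
      · exact Or.inl ⟨⟨h1, h4⟩, h3⟩
    · rintro (⟨⟨h1, h2⟩, h3⟩ | ⟨⟨h1, h2⟩, h3⟩)
      · exact ⟨⟨h1, h2.trans h⟩, h3⟩
      · exact ⟨⟨by omega, h2⟩, h3⟩
  · rw [Finset.disjoint_left]
    intro p h1 h2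
    rw [Finset.mem_filter, Finset.mem_Ioc] at h1 h2
    omega

open NatCorrAux in
theorem corr_oneU {C₁ : ℝ} (hsv : ∀ (H : Finset ℕ) (η : ℝ) (R : ℕ), 0 < η →
    2 * (2 * (H.card + 1 : ℕ) * C₁) ≤ R + 1 →
    (2 * (H.card + 1 : ℕ) * C₁) ^ (R + 1) / ((R + 1).factorial : ℝ) < Real.log (1 + η / 4) / 4 →
    ∀ (q : ℕ), 0 < q → ∃ x₀ : ℕ, ∀ (z : ℕ → ℕ → ℂ) (D : Finset ℕ) (J x a : ℕ),
      (∀ p ∈ D, p.Prime ∧ H.sup id + 1 + (2 * (H.card + 1)) ^ 2 ≤ p ∧ be p < J ∧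
        Nat.Coprime q p ∧ ∀ h ∈ H, ‖z h p‖ = 1) →
      2 ^ (2 ^ (J + 2) * (R + 2)) ≤ x → x₀ ≤ x →
      ‖∑ n ∈ Icc 1 x, (if n ≡ a [MOD q] then (1:ℂ) else 0) * ∏ p ∈ D, (1 + th z H n p)‖ ≤
        x / q * (Real.exp (-((∑ p ∈ D, ∑ h ∈ H, (1 - (z h p).re) / p) / 2)) + η))
    {A₀ : ℕ} (hnum : ∀ L k : ℕ, 1 ≤ L → k ≤ L →
      2 * (2 * (k + 1 : ℕ) * C₁) ≤ ((A₀ * L : ℕ) : ℝ) + 1 ∧
      (2 * (k + 1 : ℕ) * C₁) ^ (A₀ * L + 1) / ((A₀ * L + 1).factorial : ℝ) <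
        Real.log (1 + (1 / 4 : ℝ) ^ L / 8 / 4) / 4)
    {q : ℕ} (hq : 0 < q) (S : Finset ℕ) (u : ℕ → ℕ → ℂ)
    (ψ : ℕ → DirichletCharacter ℂ q) (hu : ∀ h ∈ S, MulC (u h)) (hn : ∀ h, ∀ n, ‖u h n‖ = 1)
    {h₀ : ℕ} (hh₀ : h₀ ∈ S)
    (hfar : Tendsto (fun N => DU (u h₀) (ψ h₀) 0 N) atTop atTop)
    {K b c : ℕ} (hK : 1 ≤ K) (hSK : S.card ≤ K) (hc : 16 * (A₀ + 2) * K * 2 ^ b ≤ 2 ^ c) :
    ∀ᶠ N : ℕ in atTop, ∀ x ≤ N, N ≤ x ^ (2 ^ b) →
      ‖∑ n ∈ Icc 1 x, ∏ h ∈ S, vU (2 ^ c) (u h) (ψ h) N (n + h)‖ ≤ x * (1 / 4) ^ K := by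
  classical
  have hKR : (0:ℝ) < K := by exact_mod_cast hK
  obtain ⟨hn1, hn2⟩ := hnum K S.card hK hSK
  set η : ℝ := (1 / 4 : ℝ) ^ K / 8 with hη
  have hη0 : 0 < η := by positivity
  set M : ℕ := S.sup id with hM
  obtain ⟨z, m, hzw, hz1, hzm, hze⟩ := choice_z hK (q + (M + 1 + (2 * (S.card + 1)) ^ 2))
  set R' : ℕ := q * QQ z m with hR'
  have hR0 : 0 < R' := Nat.mul_pos hq (QQ_pos z m)
  obtain ⟨x₀, hx₀⟩ := hsv S η (A₀ * K) hη0 hn1 hn2 R' hR0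
  set Λ : ℝ := 2 * (1 + |Real.log η|) with hΛ
  have hexp : Real.exp (-(Λ / 2)) ≤ η := by
    calc Real.exp (-(Λ / 2)) ≤ Real.exp (Real.log η) := by
          apply Real.exp_le_exp.2
          have h1 := neg_abs_le (Real.log η)
          rw [hΛ]
          linarith
      _ = η := Real.exp_log hη0
  obtain ⟨Y, hYz, hY⟩ : ∃ Y : ℕ, z ≤ Y ∧ Λ + 2 * z ≤ DU (u h₀) (ψ h₀) 0 Y :=
    ((eventually_ge_atTop z).and (hfar.eventually_ge_atTop (Λ + 2 * z))).exists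
  have hYD : Λ ≤ DU (u h₀) (ψ h₀) z Y := by
    have h1 := DU_add (u h₀) (ψ h₀) hYz
    have h2 := DU_le_two (hn h₀) (ψ h₀) z
    linarith
  obtain ⟨X, hX1, hX2, hX3, hX4⟩ : ∃ X : ℕ, 4 ≤ X ∧ x₀ ≤ X ∧ 2 ^ (4 * (A₀ * K + 2)) ≤ X ∧
      64 * K * (M + 1) * 4 ^ K ≤ X :=
    ⟨max (max 4 x₀) (max (2 ^ (4 * (A₀ * K + 2))) (64 * K * (M + 1) * 4 ^ K)),
      (le_max_left _ _).trans (le_max_left _ _), (le_max_right _ _).trans (le_max_left _ _),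
      (le_max_left _ _).trans (le_max_right _ _), (le_max_right _ _).trans (le_max_right _ _)⟩
  have hbig := eventually_scale (eventually_ge_atTop X) b
  filter_upwards [hbig, eventually_ge_atTop 2, eventually_ge_atTop z,
    eventually_ge_atTop (Y ^ (2 ^ c)), eventually_ge_atTop Y] with
    N h2 h3 h4 h5 h6 x hxN hNx
  have hx := h2 x hNx
  have hx4 : 4 ≤ x := hX1.trans hx
  have hxx0 : x₀ ≤ x := hX2.trans hx
  have hxp : 2 ^ (4 * (A₀ * K + 2)) ≤ x := hX3.trans hx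
  have hxL : 64 * K * (M + 1) * 4 ^ K ≤ x := hX4.trans hx
  have hx0 : (0:ℝ) < x := by
    have : 0 < x := by omega
    exact_mod_cast this
  have hlogx : 4 * (A₀ * K + 2) ≤ Nat.log 2 x := Nat.le_log_of_pow_le (by norm_num) hxp
  obtain ⟨J, hJ1, hJ2⟩ := level hK hc h3 hNx hx4 hlogx
  set D : Finset ℕ := (Icc 1 N).filter
    (fun p => p.Prime ∧ z < p ∧ p ^ (2 ^ c) ≤ N) with hD
  have hDp : ∀ p ∈ D, p.Prime ∧ z < p ∧ p ^ (2 ^ c) ≤ N := fun p hp =>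
    (mem_filter.1 hp).2
  have hprime : ∀ p ∈ D, p.Prime := fun p hp => (hDp p hp).1
  set zz : ℕ → ℕ → ℂ := fun h p => u h p * (starRingEnd ℂ) (ψ h (p : ZMod q)) with hzz
  have hqz : q ≤ z := by omega
  have hndvd : ∀ p : ℕ, z < p → ¬ p ∣ q := by
    intro p hp k
    have := Nat.le_of_dvd hq k
    omega
  have hzz1 : ∀ h, ∀ p ∈ D, ‖zz h p‖ = 1 := by
    intro h p hp
    show ‖u h p * (starRingEnd ℂ) (ψ h (p : ZMod q))‖ = 1
    rw [norm_mul, hn, one_mul, Complex.norm_conj]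
    exact char_norm (hprime p hp) (hndvd p (hDp p hp).2.1) (ψ h)
  have hmass : Λ ≤ ∑ p ∈ D, ∑ h ∈ S, (1 - (zz h p).re) / p := by
    have e1 : ∑ p ∈ D, (1 - (zz h₀ p).re) / (p:ℝ) ≤ ∑ p ∈ D, ∑ h ∈ S, (1 - (zz h p).re) / p := by
      refine Finset.sum_le_sum fun p _ => ?_
      exact Finset.single_le_sum (f := fun h => (1 - (zz h p).re) / (p:ℝ))
        (fun h _ => term_nn (norm_termU_le (hn h) p (ψ h) (p : ZMod q)) p) hh₀
    have e2 : DU (u h₀) (ψ h₀) z Y ≤ ∑ p ∈ D, (1 - (zz h₀ p).re) / (p:ℝ) := by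
      unfold DU
      refine Finset.sum_le_sum_of_subset_of_nonneg ?_
        (fun p _ _ => term_nn (norm_termU_le (hn h₀) p (ψ h₀) (p : ZMod q)) p)
      intro p hp
      rw [mem_filter, mem_Ioc] at hp
      rw [hD, mem_filter, mem_Icc]
      refine ⟨⟨hp.2.one_le, hp.1.2.trans h6⟩, hp.2, hp.1.1, ?_⟩
      exact (Nat.pow_le_pow_left hp.1.2 _).trans h5
    linarith
  have hHp : ∀ p ∈ D, ∀ h ∈ S, h < p := by
    intro p hp h hh
    have k1 := (hDp p hp).2.1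
    have k2 : h ≤ S.sup id := Finset.le_sup (f := id) hh
    omega
  have hcop : ∀ p ∈ D, Nat.Coprime R' p := by
    intro p hp
    have k1 := hDp p hp
    rw [Nat.coprime_comm, Nat.Prime.coprime_iff_not_dvd k1.1, hR']
    intro hdiv
    rcases (Nat.Prime.dvd_mul k1.1).1 hdiv with k2 | k2
    · exact hndvd p k1.2.1 k2
    · have k3 : p ∣ z.factorial := k1.1.dvd_of_dvd_pow k2
      have := (Nat.Prime.dvd_factorial k1.1).1 k3
      omega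
  set V : ℕ → ℕ → ℂ := fun h => vU (2 ^ c) (u h) (ψ h) N with hV
  set G : ℕ → ℕ → ℂ := fun h => gc (zz h) D with hG
  have hF : ∀ h ∈ S, MulC fun n => V h n * (starRingEnd ℂ) (G h n) := fun h hh =>
    mulC_conj (vU_mulC _ (hu h hh) (ψ h) N) (gc_mulC hprime (fun p hp => (hzz1 h p hp).le))
  have hG1 : ∀ h ∈ S, ∀ n, ‖G h n‖ = 1 := fun h _ n => norm_gc (hzz1 h) n
  have htop : ∀ h ∈ S, ∀ p : ℕ, p.Prime → z < p → p ≤ N →
      V h p * (starRingEnd ℂ) (G h p) = ψ h (p : ZMod q) := by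
    intro h _ p hp hpz hpN
    show vU (2 ^ c) (u h) (ψ h) N p * (starRingEnd ℂ) (gc (zz h) D p) = ψ h (p : ZMod q)
    rw [gc_prime hprime hp]
    by_cases k4 : p ^ (2 ^ c) ≤ N
    · have k5 : p ∈ D := by
        rw [hD, mem_filter, mem_Icc]
        exact ⟨⟨hp.one_le, hpN⟩, hp, hpz, k4⟩
      rw [vU_low (ψ h) hp k4, if_pos k5]
      show u h p * (starRingEnd ℂ) (u h p * (starRingEnd ℂ) (ψ h (p : ZMod q))) = _
      rw [map_mul, Complex.conj_conj, ← mul_assoc, Complex.mul_conj, Complex.normSq_eq_norm_sq, hn h p]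
      simp
    · have k5 : p ∉ D := fun k => k4 (hDp p k).2.2
      rw [vU_top (hn h) (ψ h) hp (not_le.1 k4), if_neg k5, map_one, mul_one]
  have hdiff := nat_diffC hF hG1 ψ (m := m) (M := M) hz1 hxN
    (fun h hh => Finset.le_sup (f := id) hh) htop
  set P : ℕ → ℂ := fun n =>
    ∏ h ∈ S, PPc (fun n => V h n * (starRingEnd ℂ) (G h n)) (ψ h) z m (n + h) with hP
  have hmain : ‖∑ n ∈ Icc 1 x, P n * ∏ h ∈ S, G h (n + h)‖ ≤ x * (η + η) := by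
    refine split_classesC hR0 ?_ ?_ ?_
    · intro n
      refine Finset.prod_congr rfl fun h _ => ?_
      have e1 : n + R' + h = n + h + q * QQ z m := by rw [hR']; ring
      rw [e1]
      exact PPc_periodic _ (ψ h) z m (n + h)
    · intro n
      show ‖∏ h ∈ S, PPc (fun n => V h n * (starRingEnd ℂ) (G h n)) (ψ h) z m (n + h)‖ ≤ 1
      rw [norm_prod]
      exact Finset.prod_le_one (fun h _ => norm_nonneg _)
        (fun h hh => norm_PPc_le (hF h hh) (ψ h) z m (n + h))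
    · intro a
      have k1 := hx₀ zz D J x a (fun p hp => ⟨hprime p hp, ?_, hJ1 p (hprime p hp)
        (hDp p hp).2.2, hcop p hp, fun h _ => hzz1 h p hp⟩) hJ2 hxx0
      · have k2 : ∀ n, ∏ h ∈ S, G h (n + h) = ∏ p ∈ D, (1 + th zz S n p) := gc_th hHp
        simp only [k2]
        refine k1.trans ?_
        refine mul_le_mul_of_nonneg_left ?_ (by positivity)
        refine add_le_add ?_ le_rfl
        refine le_trans (Real.exp_le_exp.2 ?_) hexp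
        linarith
      · have := (hDp p hp).2.1
        omega
  have k1 : ‖∑ n ∈ Icc 1 x, ∏ h ∈ S, V h (n + h)‖ ≤
      ‖∑ n ∈ Icc 1 x, ∏ h ∈ S, V h (n + h) - ∑ n ∈ Icc 1 x, P n * ∏ h ∈ S, G h (n + h)‖ +
        ‖∑ n ∈ Icc 1 x, P n * ∏ h ∈ S, G h (n + h)‖ := by
    have := norm_add_le (∑ n ∈ Icc 1 x, ∏ h ∈ S, V h (n + h) -
      ∑ n ∈ Icc 1 x, P n * ∏ h ∈ S, G h (n + h)) (∑ n ∈ Icc 1 x, P n * ∏ h ∈ S, G h (n + h))
    rwa [sub_add_cancel] at this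
  -- numerics
  set e : ℝ := 1 / (64 * K) * (1 / 4) ^ K with he
  have he0 : 0 < e := by positivity
  have hSR : (S.card : ℝ) ≤ K := by exact_mod_cast hSK
  have k2 : 2 * (S.card:ℝ) * ((x + M) * (z * (1 / 2) ^ (m + 1) + 1 / z) + M) ≤
      x * ((1 / 4) ^ K / 2) := by
    have k4 : ((64 * K * (M + 1) * 4 ^ K : ℕ) : ℝ) ≤ x := by exact_mod_cast hxL
    push_cast at k4
    have k5 : (M:ℝ) ≤ x := by
      have : M ≤ x := by
        have i1 : 1 ≤ 4 ^ K := Nat.one_le_pow _ _ (by norm_num)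
        have i2 : 1 * (M + 1) ≤ 64 * K * (M + 1) := Nat.mul_le_mul_right _ (by omega)
        have i3 : 64 * K * (M + 1) * 1 ≤ 64 * K * (M + 1) * 4 ^ K := Nat.mul_le_mul_left _ i1
        omega
      exact_mod_cast this
    have hM0 : (0:ℝ) ≤ M := Nat.cast_nonneg M
    have k3 : ((x:ℝ) + M) * (z * (1 / 2) ^ (m + 1) + 1 / z) ≤ (x + M) * (e + e) :=
      mul_le_mul_of_nonneg_left (add_le_add hzm hze) (by positivity)
    have k6 : (1 / 4 : ℝ) ^ K = 64 * K * e := by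
      rw [he]
      field_simp
    have k7 : (4:ℝ) ^ K * (1 / 4) ^ K = 1 := by
      rw [← mul_pow]
      norm_num
    have k8 : 64 * (K:ℝ) * (M + 1) ≤ x * (1 / 4) ^ K := by
      have i1 := mul_le_mul_of_nonneg_right k4 (show (0:ℝ) ≤ (1 / 4) ^ K by positivity)
      calc 64 * (K:ℝ) * (M + 1) = 64 * (K:ℝ) * (M + 1) * (4 ^ K * (1 / 4) ^ K) := by
            rw [k7, mul_one]
        _ = 64 * (K:ℝ) * (M + 1) * 4 ^ K * (1 / 4) ^ K := by ring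
        _ ≤ x * (1 / 4) ^ K := i1
    have k9 : ((x:ℝ) + M) * (e + e) ≤ 4 * x * e := by nlinarith
    have k10 : 2 * (S.card:ℝ) * ((x + M) * (z * (1 / 2) ^ (m + 1) + 1 / z) + M) ≤
        2 * K * (4 * x * e + M) := by
      refine mul_le_mul (by linarith) (by linarith) (by positivity) (by positivity)
    have k11 : 2 * (K:ℝ) * (4 * x * e + M) = x * (64 * K * e) / 8 + 2 * K * M := by ring
    rw [k11, ← k6] at k10
    have k12 : (0:ℝ) ≤ x * (1 / 4) ^ K := by positivity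
    nlinarith
  have k3 := k1.trans (add_le_add hdiff hmain)
  have hηe : x * (η + η) = x * ((1 / 4) ^ K / 4) := by
    rw [hη]
    ring
  rw [hηe] at k3
  have k4 : (0:ℝ) ≤ x * (1 / 4) ^ K := by positivity
  show ‖∑ n ∈ Icc 1 x, ∏ h ∈ S, V h (n + h)‖ ≤ x * (1 / 4) ^ K
  linarith

end CorrUAux

open CorrUAux in
theorem corrU : ∃ A : ℕ, 0 < A ∧ ∀ (q : ℕ), 0 < q → ∀ (S : Finset ℕ) (u : ℕ → ℕ → ℂ)
    (ψ : ℕ → DirichletCharacter ℂ q), (∀ h ∈ S, MulC (u h)) → (∀ h n, ‖u h n‖ = 1) →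
    (∃ h ∈ S, Tendsto (fun N => DU (u h) (ψ h) 0 N) atTop atTop) →
    ∀ K b c : ℕ, 1 ≤ K → S.card ≤ K → A * K * 2 ^ b ≤ 2 ^ c →
      ∀ᶠ N : ℕ in atTop, ∀ x ≤ N, N ≤ x ^ (2 ^ b) →
        ‖∑ n ∈ Icc 1 x, ∏ h ∈ S, vU (2 ^ c) (u h) (ψ h) N (n + h)‖ ≤ x * (1 / 4) ^ K := by
  obtain ⟨C₁, hC₁, hsv⟩ := sieveC
  obtain ⟨A₀, hA₀, hnum⟩ := num_R hC₁
  refine ⟨16 * (A₀ + 2), by omega, ?_⟩
  intro q hq S u ψ hu hn hfar K b c hK hSK hc
  obtain ⟨h₀, hh₀, hfar⟩ := hfar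
  exact corr_oneU hsv hnum hq S u ψ hu hn hh₀ hfar hK hSK hc

end Pool.Agent.Lib.P4a7640W
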