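import Mathlib
import Pool.Agent.Lib.P4a7640W.Base

/-!
# A real function does not pretend to be a twisted character

Module P4a7640W.DivT (1.5 h).

Let `z p = sgC (u p) * tw s p * conj (ψ p)`, `‖z p‖ ≤ 1`. All terms `(1 - Re z p)/p` are `≥ 0`, so the partial sums are monotone; suppose
they are bounded by `M`. For `p ∤ q`: `‖z p‖ = 1`, `z p ^ 2 = tw (2 s) p * conj (ψ p)^2` (`sgC (u p)^2 = 1`) and
`1 - Re (z^2) = 2 (1 - (Re z)^2) ≤ 4 (1 - Re z)`. So `∑_{p ≤ N, p ∤ q} (1 - Re (y p))/p ≤ 4 M` with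
`y p = φ(p) p^(2 i s)`, `φ = (ψ^2)⁻¹` a Dirichlet character mod `q` (`conj (ψ p) = (ψ p)⁻¹`), and for `p ∣ q` the sum is at most `2 q`.
So for real `σ > 1`: `∑_p (1 - Re (y p)) p^(-σ) ≤ 4 M + 2 q` for all `σ > 1` (`p^(-σ) ≤ 1/p`), i.e. `∑_p p^(-σ) ≤ 4 M + 2 q + Re ∑_p φ(p) p^(-(σ - 2 i s))`.
As `σ → 1+`: `∑_p p^(-σ) → ∞` (Mathlib: `Nat.Primes.not_summable_one_div`, or `riemannZeta_residue_one`/`tendsto_sub_mul_tsum_nat_rpow` with the Euler product),
whereas `Re ∑_p φ(p) p^(-w) ≤ log ‖L(w, φ)‖ + 2 ∑_p p^(-2)` for `w = σ - 2 i s`, because `exp (∑' p, -log (1 - φ p * p^(-w))) = L(w, φ)`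
(`DirichletCharacter.LSeries_eulerProduct_exp_log`) and `‖-log (1 - x) - x‖ ≤ ‖x‖^2` for `‖x‖ ≤ 1/2`
(`Complex.norm_log_one_sub_inv_sub_self_le` or similar), and `‖L(w, φ)‖` stays bounded as `σ → 1+`: `DirichletCharacter.LFunction` is
continuous at `1 - 2 i s ≠ 1` (`DirichletCharacter.differentiableAt_LFunction`) and equals the L-series for `Re w > 1`. (`NeZero q` is needed.)
Contradiction. (Any other route is fine.)
-/

open Finset Filter Topology
open Pool.Agent.Lib.P4a7640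

namespace Pool.Agent.Lib.P4a7640W

private lemma sgC_sq' (u : ℤˣ) : sgC u ^ 2 = 1 := by
  rcases Int.units_eq_one_or u with rfl | rfl <;> simp [sgC]

private lemma norm_sgC' (u : ℤˣ) : ‖sgC u‖ = 1 := by
  rcases Int.units_eq_one_or u with rfl | rfl <;> simp [sgC]

private lemma norm_tw' (s : ℝ) (n : ℕ) : ‖tw s n‖ = 1 := by
  unfold tw
  exact Complex.norm_exp_ofReal_mul_I _

private lemma tw_sq' (s : ℝ) (n : ℕ) : tw s n ^ 2 = tw (2 * s) n := by
  unfold tw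
  rw [← Complex.exp_nat_mul]
  congr 1
  push_cast
  ring

private lemma cpow_eq' {p : ℕ} (hp : 0 < p) (σ t : ℝ) :
    (p : ℂ) ^ (-((σ : ℂ) - (t : ℂ) * Complex.I)) = (((p : ℝ) ^ (-σ) : ℝ) : ℂ) * tw t p := by
  have hp' : (p : ℂ) ≠ 0 := by exact_mod_cast hp.ne'
  have hpr : (0 : ℝ) < p := by exact_mod_cast hp
  rw [Complex.cpow_def_of_ne_zero hp', Real.rpow_def_of_pos hpr, Complex.ofReal_exp, tw,
    ← Complex.exp_add]
  congr 1
  rw [← Complex.natCast_log]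
  push_cast
  ring

private lemma sq_re_le {z : ℂ} (hz : ‖z‖ ≤ 1) : 1 - (z ^ 2).re ≤ 4 * (1 - z.re) := by
  have h1 : z.re ^ 2 + z.im ^ 2 ≤ 1 := by
    have : ‖z‖ ^ 2 = z.re ^ 2 + z.im ^ 2 := by
      rw [← Complex.normSq_eq_norm_sq, Complex.normSq_apply]; ring
    rw [← this]
    exact pow_le_one₀ (norm_nonneg _) hz
  have h2 : (z ^ 2).re = z.re ^ 2 - z.im ^ 2 := by
    rw [pow_two, Complex.mul_re]; ring
  rw [h2]
  nlinarith [sq_nonneg (z.re - 1)]

private lemma log_bound {a : ℂ} (ha : ‖a‖ ≤ 1 / 2) :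
    a.re ≤ (-Complex.log (1 - a)).re + ‖a‖ ^ 2 := by
  have h := Complex.norm_log_one_add_sub_self_le (z := -a) (by rw [norm_neg]; linarith)
  rw [norm_neg] at h
  have h2 : (1 - ‖a‖)⁻¹ ≤ 2 := by
    rw [inv_le_comm₀ (by linarith) (by norm_num)]
    linarith
  have h3 : ‖a‖ ^ 2 * (1 - ‖a‖)⁻¹ / 2 ≤ ‖a‖ ^ 2 := by
    have : ‖a‖ ^ 2 * (1 - ‖a‖)⁻¹ ≤ ‖a‖ ^ 2 * 2 := mul_le_mul_of_nonneg_left h2 (sq_nonneg _)
    linarith
  have h4 : |(Complex.log (1 + -a) - -a).re| ≤ ‖a‖ ^ 2 :=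
    (Complex.abs_re_le_norm _).trans (h.trans h3)
  have h5 := (abs_le.1 h4).2
  rw [← sub_eq_add_neg] at h5
  simp only [Complex.sub_re, Complex.neg_re] at h5 ⊢
  linarith

private lemma rpow_le_inv {p : ℕ} (hp : p.Prime) {σ : ℝ} (hσ : 1 < σ) :
    (p : ℝ) ^ (-σ) ≤ 1 / p := by
  have h1 : (1 : ℝ) ≤ p := by exact_mod_cast hp.one_lt.le
  rw [one_div, ← Real.rpow_neg_one]
  exact Real.rpow_le_rpow_of_exponent_le h1 (by linarith)

/-- the main analytic bound -/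
private lemma main_bd {q : ℕ} [NeZero q] (φ : DirichletCharacter ℂ q) {t : ℝ} (y : ℕ → ℂ)
    (hy : ∀ p, y p = φ (p : ZMod q) * tw t p)
    (hsum : Summable fun p : Nat.Primes => (1 - (y p).re) / (p : ℝ)) {σ K : ℝ} (hσ : 1 < σ)
    (hK : ‖DirichletCharacter.LFunction φ ((σ : ℂ) - (t : ℂ) * Complex.I)‖ ≤ K)
    (S : Finset Nat.Primes) :
    ∑ p ∈ S, (p : ℝ) ^ (-σ) ≤ (∑' p : Nat.Primes, (1 - (y p).re) / (p : ℝ)) + Real.log K
      + ∑' p : Nat.Primes, (p : ℝ) ^ (-(2 : ℝ)) := by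
  have hyn : ∀ p, ‖y p‖ ≤ 1 := by
    intro p
    rw [hy, norm_mul, norm_tw', mul_one]
    exact DirichletCharacter.norm_le_one φ _
  have hre : 1 < ((σ : ℂ) - (t : ℂ) * Complex.I).re := by simpa using hσ
  set a : Nat.Primes → ℂ := fun p => φ ((p : ℕ) : ZMod q) *
    ((p : ℕ) : ℂ) ^ (-((σ : ℂ) - (t : ℂ) * Complex.I)) with ha
  have hae : ∀ p : Nat.Primes, a p = (((p : ℝ) ^ (-σ) : ℝ) : ℂ) * y p := by
    intro p
    rw [ha]
    simp only
    rw [cpow_eq' p.2.pos, hy]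
    ring
  have hpos : ∀ p : Nat.Primes, 0 ≤ (p : ℝ) ^ (-σ) := fun p => by positivity
  have han : ∀ p : Nat.Primes, ‖a p‖ ≤ (p : ℝ) ^ (-σ) := by
    intro p
    rw [hae, norm_mul, Complex.norm_of_nonneg (hpos p)]
    exact mul_le_of_le_one_right (hpos p) (hyn p)
  have hinv : ∀ p : Nat.Primes, (p : ℝ) ^ (-σ) ≤ 1 / p := fun p => rpow_le_inv p.2 hσ
  have hhalf : ∀ p : Nat.Primes, (1 : ℝ) / p ≤ 1 / 2 := by
    intro p
    have : (2 : ℝ) ≤ p := by exact_mod_cast p.2.two_le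
    exact one_div_le_one_div_of_le (by norm_num) this
  have hs1 : Summable fun p : Nat.Primes => (p : ℝ) ^ (-σ) :=
    Nat.Primes.summable_rpow.2 (by linarith)
  have hs2 : Summable fun p : Nat.Primes => (p : ℝ) ^ (-(2 : ℝ)) :=
    Nat.Primes.summable_rpow.2 (by norm_num)
  have hsa : Summable a := Summable.of_norm_bounded hs1 han
  have hsl : Summable fun p : Nat.Primes => -Complex.log (1 - a p) := hsa.clog_one_sub.neg
  have hexp := DirichletCharacter.LSeries_eulerProduct_exp_log φ hre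
  have hSre : (∑' p : Nat.Primes, -Complex.log (1 - a p)).re ≤ Real.log K := by
    rw [← DirichletCharacter.LFunction_eq_LSeries φ hre] at hexp
    have h1 : Real.exp (∑' p : Nat.Primes, -Complex.log (1 - a p)).re ≤ K := by
      rw [← Complex.norm_exp]
      calc ‖Complex.exp (∑' p : Nat.Primes, -Complex.log (1 - a p))‖
          = ‖DirichletCharacter.LFunction φ ((σ : ℂ) - (t : ℂ) * Complex.I)‖ := by
            rw [← hexp]
        _ ≤ K := hK
    have h2 := Real.log_le_log (Real.exp_pos _) h1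
    rwa [Real.log_exp] at h2
  have hre1 : (∑' p : Nat.Primes, -Complex.log (1 - a p)).re
      = ∑' p : Nat.Primes, (-Complex.log (1 - a p)).re := Complex.re_tsum hsl
  have hslr : Summable fun p : Nat.Primes => (-Complex.log (1 - a p)).re :=
    (Complex.hasSum_re hsl.hasSum).summable
  have hpt : ∀ p : Nat.Primes, (p : ℝ) ^ (-σ) ≤ (1 - (y p).re) / (p : ℝ)
      + (-Complex.log (1 - a p)).re + (p : ℝ) ^ (-(2 : ℝ)) := by
    intro p
    have h1 := log_bound ((han p).trans ((hinv p).trans (hhalf p)))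
    have h2 : ‖a p‖ ^ 2 ≤ (p : ℝ) ^ (-(2 : ℝ)) := by
      have h3 : ‖a p‖ ^ 2 ≤ (1 / (p : ℝ)) ^ 2 :=
        pow_le_pow_left₀ (norm_nonneg _) ((han p).trans (hinv p)) 2
      have h4 : (p : ℝ) ^ (-(2 : ℝ)) = (1 / (p : ℝ)) ^ 2 := by
        rw [Real.rpow_neg (Nat.cast_nonneg _)]
        norm_num
      rw [h4]
      exact h3
    have h5 : (a p).re = (p : ℝ) ^ (-σ) * (y p).re := by
      rw [hae, Complex.re_ofReal_mul]
    have h6 : (p : ℝ) ^ (-σ) - (a p).re ≤ (1 - (y p).re) / (p : ℝ) := by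
      rw [h5]
      have h7 : 0 ≤ 1 - (y p).re := by
        have := (Complex.abs_re_le_norm (y p)).trans (hyn p)
        linarith [(abs_le.1 this).2]
      have h8 := mul_le_mul_of_nonneg_right (hinv p) h7
      calc (p : ℝ) ^ (-σ) - (p : ℝ) ^ (-σ) * (y p).re
          = (p : ℝ) ^ (-σ) * (1 - (y p).re) := by ring
        _ ≤ 1 / (p : ℝ) * (1 - (y p).re) := h8
        _ = (1 - (y p).re) / (p : ℝ) := by ring
    linarith
  calc ∑ p ∈ S, (p : ℝ) ^ (-σ) ≤ ∑' p : Nat.Primes, (p : ℝ) ^ (-σ) :=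
        hs1.sum_le_tsum S (fun p _ => hpos p)
    _ ≤ ∑' p : Nat.Primes, ((1 - (y p).re) / (p : ℝ)
      + (-Complex.log (1 - a p)).re + (p : ℝ) ^ (-(2 : ℝ))) :=
        hs1.tsum_le_tsum hpt ((hsum.add hslr).add hs2)
    _ = (∑' p : Nat.Primes, (1 - (y p).re) / (p : ℝ)) +
        (∑' p : Nat.Primes, (-Complex.log (1 - a p)).re)
        + ∑' p : Nat.Primes, (p : ℝ) ^ (-(2 : ℝ)) := by
        rw [(hsum.add hslr).tsum_add hs2, hsum.tsum_add hslr]
    _ ≤ _ := by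
        rw [← hre1]
        linarith

theorem div_twist (u : ℕ → ℤˣ) {q : ℕ} (hq : 0 < q) (ψ : DirichletCharacter ℂ q) {s : ℝ}
    (hs : s ≠ 0) : Tendsto (fun N : ℕ => DU (fun n => sgC (u n) * tw s n) ψ 0 N) atTop atTop := by
  have : NeZero q := ⟨hq.ne'⟩
  set z : ℕ → ℂ := fun p => sgC (u p) * tw s p * (starRingEnd ℂ) (ψ (p : ZMod q)) with hz
  have hzn : ∀ p, ‖z p‖ ≤ 1 := by
    intro p
    rw [hz]
    simp only
    rw [norm_mul, norm_mul, norm_sgC', norm_tw', one_mul, one_mul, RCLike.norm_conj]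
    exact DirichletCharacter.norm_le_one ψ _
  have hz1 : ∀ p, 0 ≤ 1 - (z p).re := by
    intro p
    have := (Complex.abs_re_le_norm (z p)).trans (hzn p)
    linarith [(abs_le.1 this).2]
  set F : ℕ → ℝ := fun N : ℕ => DU (fun n => sgC (u n) * tw s n) ψ 0 N with hF
  have hFe : ∀ N, F N = ∑ p ∈ (Ioc 0 N).filter Nat.Prime, (1 - (z p).re) / (p : ℝ) := by
    intro N
    rfl
  have hmono : Monotone F := by
    intro M N hMN
    rw [hFe, hFe]
    refine Finset.sum_le_sum_of_subset_of_nonneg ?_ ?_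
    · exact Finset.filter_subset_filter _ (Finset.Ioc_subset_Ioc_right hMN)
    · intro p _ _
      exact div_nonneg (hz1 p) (Nat.cast_nonneg _)
  rcases tendsto_atTop_of_monotone hmono with h | ⟨l, hl⟩
  · exact h
  exfalso
  have hb : ∀ N, F N ≤ l := fun N => hmono.ge_of_tendsto hl N
  have hsz : Summable fun p : Nat.Primes => (1 - (z p).re) / (p : ℝ) := by
    refine summable_of_sum_le (c := l) (fun p => div_nonneg (hz1 p) (Nat.cast_nonneg _)) ?_
    intro S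
    obtain ⟨N, hN⟩ : ∃ N : ℕ, ∀ p ∈ S, (p : ℕ) ≤ N :=
      ⟨S.sup (fun p => (p : ℕ)), fun p hp => Finset.le_sup (f := fun p : Nat.Primes => (p : ℕ)) hp⟩
    refine le_trans ?_ (hb N)
    rw [hFe]
    have h1 : ∑ p ∈ S, (1 - (z p).re) / ((p : ℕ) : ℝ) =
        ∑ p ∈ S.map ⟨fun p : Nat.Primes => (p : ℕ), fun a b h => Subtype.ext h⟩,
          (1 - (z p).re) / (p : ℝ) := by
      rw [Finset.sum_map]
      rfl
    rw [h1]
    refine Finset.sum_le_sum_of_subset_of_nonneg ?_ ?_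
    · intro p hp
      rw [Finset.mem_map] at hp
      obtain ⟨r, hr, rfl⟩ := hp
      rw [Finset.mem_filter, Finset.mem_Ioc]
      exact ⟨⟨r.2.pos, hN r hr⟩, r.2⟩
    · intro p _ _
      exact div_nonneg (hz1 p) (Nat.cast_nonneg _)
  set φ : DirichletCharacter ℂ q := ψ⁻¹ * ψ⁻¹ with hφ
  set y : ℕ → ℂ := fun p => z p ^ 2 with hy
  have hyφ : ∀ p, y p = φ (p : ZMod q) * tw (2 * s) p := by
    intro p
    have h1 : (starRingEnd ℂ) (ψ (p : ZMod q)) = ψ⁻¹ (p : ZMod q) := MulChar.star_apply' ψ _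
    rw [hy]
    simp only
    rw [hz]
    simp only
    rw [h1, mul_pow, mul_pow, sgC_sq', tw_sq', hφ, MulChar.mul_apply]
    ring
  have hsy : Summable fun p : Nat.Primes => (1 - (y p).re) / (p : ℝ) := by
    refine Summable.of_nonneg_of_le ?_ ?_ (hsz.mul_left 4)
    · intro p
      refine div_nonneg ?_ (Nat.cast_nonneg _)
      have h1 : ‖y p‖ ≤ 1 := by
        rw [hy]
        simp only
        rw [norm_pow]
        exact pow_le_one₀ (norm_nonneg _) (hzn p)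
      have := (Complex.abs_re_le_norm (y p)).trans h1
      linarith [(abs_le.1 this).2]
    · intro p
      rw [← mul_div_assoc]
      exact div_le_div_of_nonneg_right (sq_re_le (hzn p)) (Nat.cast_nonneg _)
  set K : ℝ := ‖DirichletCharacter.LFunction φ (((1 : ℝ) : ℂ) - ((2 * s : ℝ) : ℂ) * Complex.I)‖ + 1
    with hKdef
  have hne : (((1 : ℝ) : ℂ) - ((2 * s : ℝ) : ℂ) * Complex.I) ≠ 1 := by
    intro h
    have := congrArg Complex.im h
    simp at this
    exact hs this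
  have hcont : ContinuousAt (fun σ : ℝ =>
      ‖DirichletCharacter.LFunction φ ((σ : ℂ) - ((2 * s : ℝ) : ℂ) * Complex.I)‖) 1 := by
    have h1 := (DirichletCharacter.differentiableAt_LFunction φ _ (Or.inl hne)).continuousAt
    refine ContinuousAt.norm ?_
    refine ContinuousAt.comp (f := fun σ : ℝ => (σ : ℂ) - ((2 * s : ℝ) : ℂ) * Complex.I) h1 ?_
    exact (Complex.continuous_ofReal.sub continuous_const).continuousAt
  have hev : ∀ᶠ σ : ℝ in 𝓝[>] (1 : ℝ),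
      ‖DirichletCharacter.LFunction φ ((σ : ℂ) - ((2 * s : ℝ) : ℂ) * Complex.I)‖ ≤ K := by
    have h1 := hcont.tendsto.mono_left (nhdsWithin_le_nhds (s := Set.Ioi (1 : ℝ)))
    have hlt : ‖DirichletCharacter.LFunction φ (((1 : ℝ) : ℂ) - ((2 * s : ℝ) : ℂ) * Complex.I)‖ < K := by
      rw [hKdef]; linarith
    have h2 := h1.eventually_lt_const hlt
    filter_upwards [h2] with σ hσ using hσ.le
  have hgt : ∀ᶠ σ : ℝ in 𝓝[>] (1 : ℝ), 1 < σ := self_mem_nhdsWithin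
  refine Nat.Primes.not_summable_one_div ?_
  refine summable_of_sum_le (c := (∑' p : Nat.Primes, (1 - (y p).re) / (p : ℝ)) + Real.log K
      + ∑' p : Nat.Primes, (p : ℝ) ^ (-(2 : ℝ))) (fun p => by positivity) ?_
  intro S
  have hlim : Tendsto (fun σ : ℝ => ∑ p ∈ S, (p : ℝ) ^ (-σ)) (𝓝[>] (1 : ℝ))
      (𝓝 (∑ p ∈ S, (1 / (p : ℝ)))) := by
    refine tendsto_finsetSum _ fun p _ => ?_
    have hp0 : (0 : ℝ) < p := by exact_mod_cast p.2.pos
    have h1 : ContinuousAt (fun σ : ℝ => (p : ℝ) ^ (-σ)) 1 := by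
      refine ContinuousAt.rpow continuousAt_const continuousAt_neg (Or.inl hp0.ne')
    have h2 := h1.tendsto.mono_left (nhdsWithin_le_nhds (s := Set.Ioi (1 : ℝ)))
    rwa [Real.rpow_neg_one, ← one_div] at h2
  refine le_of_tendsto hlim ?_
  filter_upwards [hev, hgt] with σ h1 h2
  exact main_bd φ y hyφ hsy h2 h1 S

end Pool.Agent.Lib.P4a7640W
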