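import Mathlib
import Pool.Agent.Lib.P4a7640W.Base

/-!
# Partial summation with the weights `n^(it)`

Module P4a7640W.NatTw (1 h).

`φ n = ∏ h ∈ S, tw (θ h) (n + h) = exp (i ∑ h ∈ S, θ h log (n + h))`, `‖φ n‖ = 1`, and for `n ≥ 1`
`‖φ (n+1) - φ n‖ ≤ ∑ h ∈ S, |θ h| (log (n+1+h) - log (n+h)) ≤ ∑ |θ h| / (n + h) ≤ T/n` (`‖exp (i a) - exp (i b)‖ ≤ |a - b|`:
`Complex.norm_exp_I_mul_ofReal_sub_one_le` or `Real.norm_exp_I_mul_ofReal_sub_one_le`, `log (1 + y) ≤ y`). With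
`A n = ∑ m ∈ Icc 1 n, F m`: `∑ n ∈ Icc 1 x, F n φ n = A x φ x - ∑ n ∈ Ico 1 x, A n (φ (n+1) - φ n)`, of norm at most
`x ε + ∑ n ∈ Ico 1 x, ‖A n‖ T / n`. If `N ≤ n^(2^(b+1))` then `‖A n‖ ≤ n ε`; these `n` contribute at most `ε T x`. Otherwise
`n^(2^(b+1)) < N ≤ x^(2^b)`, so `n^2 < x`; `‖A n‖ ≤ n`, and these `n` contribute at most `T √x ≤ ε x`, as soon as `√x ≥ T/ε`, true for
all `x` with `N ≤ x^(2^b)` if `N` is large.
-/

open Finset Filter Topology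

namespace Pool.Agent.Lib.P4a7640W

namespace NatTwAux

/-- the phase -/
noncomputable def Ph (S : Finset ℕ) (θ : ℕ → ℝ) (n : ℕ) : ℝ := ∑ h ∈ S, θ h * Real.log ((n + h : ℕ) : ℝ)

theorem prod_eq (S : Finset ℕ) (θ : ℕ → ℝ) (n : ℕ) :
    ∏ h ∈ S, tw (θ h) (n + h) = Complex.exp (((Ph S θ n : ℝ) : ℂ) * Complex.I) := by
  unfold tw Ph
  rw [← Complex.exp_sum, Complex.ofReal_sum, Finset.sum_mul]

theorem norm_phi (S : Finset ℕ) (θ : ℕ → ℝ) (n : ℕ) : ‖∏ h ∈ S, tw (θ h) (n + h)‖ = 1 := by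
  rw [prod_eq, Complex.norm_exp_ofReal_mul_I]

theorem exp_sub (a b : ℝ) : ‖Complex.exp ((a : ℂ) * Complex.I) - Complex.exp ((b : ℂ) * Complex.I)‖ ≤
    |a - b| := by
  have h1 : Complex.exp ((a : ℂ) * Complex.I) - Complex.exp ((b : ℂ) * Complex.I) =
      Complex.exp ((b : ℂ) * Complex.I) * (Complex.exp (Complex.I * ((a - b : ℝ) : ℂ)) - 1) := by
    rw [mul_sub, ← Complex.exp_add, mul_one]
    congr 2
    push_cast
    ring
  rw [h1, norm_mul, Complex.norm_exp_ofReal_mul_I, one_mul]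
  exact Real.norm_exp_I_mul_ofReal_sub_one_le

theorem phi_diff {S : Finset ℕ} {θ : ℕ → ℝ} {T : ℝ} (hT : ∑ h ∈ S, |θ h| ≤ T) {n : ℕ} (hn : 1 ≤ n) :
    ‖(∏ h ∈ S, tw (θ h) (n + 1 + h)) - ∏ h ∈ S, tw (θ h) (n + h)‖ ≤ T / n := by
  rw [prod_eq, prod_eq]
  refine (exp_sub _ _).trans ?_
  unfold Ph
  rw [← Finset.sum_sub_distrib]
  refine (Finset.abs_sum_le_sum_abs _ _).trans ?_
  have hn0 : (0 : ℝ) < n := by exact_mod_cast hn
  have h1 : ∀ h ∈ S, |θ h * Real.log ((n + 1 + h : ℕ) : ℝ) - θ h * Real.log ((n + h : ℕ) : ℝ)| ≤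
      |θ h| / n := by
    intro h _
    rw [← mul_sub, abs_mul, div_eq_mul_inv]
    refine mul_le_mul_of_nonneg_left ?_ (abs_nonneg _)
    have hp : (0 : ℝ) < ((n + h : ℕ) : ℝ) := by
      have : 0 < n + h := by omega
      exact_mod_cast this
    have hq : ((n + 1 + h : ℕ) : ℝ) = ((n + h : ℕ) : ℝ) + 1 := by
      push_cast
      ring
    have hle : Real.log ((n + h : ℕ) : ℝ) ≤ Real.log ((n + 1 + h : ℕ) : ℝ) := by
      apply Real.log_le_log hp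
      rw [hq]
      linarith
    rw [abs_of_nonneg (by linarith), ← Real.log_div (by rw [hq]; positivity) hp.ne']
    have h2 := Real.log_le_sub_one_of_pos (x := ((n + 1 + h : ℕ) : ℝ) / ((n + h : ℕ) : ℝ))
      (by rw [hq]; positivity)
    refine h2.trans ?_
    rw [hq, add_div, div_self hp.ne', add_sub_cancel_left, one_div]
    apply inv_anti₀ hn0
    push_cast
    have : (0 : ℝ) ≤ h := Nat.cast_nonneg h
    linarith
  refine (Finset.sum_le_sum h1).trans ?_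
  rw [← Finset.sum_div]
  exact div_le_div_of_nonneg_right hT hn0.le

theorem abel (F φ : ℕ → ℂ) (x : ℕ) : ∑ n ∈ Icc 1 x, F n * φ n =
    (∑ n ∈ Icc 1 x, F n) * φ x -
      ∑ n ∈ range x, (∑ m ∈ Icc 1 n, F m) * (φ (n + 1) - φ n) := by
  induction x with
  | zero => simp
  | succ x ih =>
    rw [Finset.sum_Icc_succ_top (by omega), Finset.sum_Icc_succ_top (by omega), ih,
      Finset.sum_range_succ]
    ring

theorem norm_A (F : ℕ → ℂ) (hF : ∀ n, ‖F n‖ ≤ 1) (n : ℕ) : ‖∑ m ∈ Icc 1 n, F m‖ ≤ n := by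
  refine (norm_sum_le _ _).trans ?_
  refine (Finset.sum_le_sum (fun m _ => hF m)).trans ?_
  simp

end NatTwAux

open NatTwAux

theorem nat_tw (S : Finset ℕ) (θ : ℕ → ℝ) {T : ℝ} (hT : ∑ h ∈ S, |θ h| ≤ T) {ε : ℝ} (hε : 0 < ε)
    (b : ℕ) : ∀ᶠ N : ℕ in atTop, ∀ F : ℕ → ℂ, (∀ n, ‖F n‖ ≤ 1) →
      (∀ x ≤ N, N ≤ x ^ (2 ^ (b + 1)) → ‖∑ n ∈ Icc 1 x, F n‖ ≤ x * ε) →
      ∀ x ≤ N, N ≤ x ^ (2 ^ b) →
        ‖∑ n ∈ Icc 1 x, F n * ∏ h ∈ S, tw (θ h) (n + h)‖ ≤ x * (ε * (2 + T)) := by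
  have hT0 : 0 ≤ T := (Finset.sum_nonneg fun h _ => abs_nonneg (θ h)).trans hT
  filter_upwards [Filter.eventually_gt_atTop ((⌈(T / ε) ^ 2⌉₊ + 1) ^ (2 ^ b))] with N hN
  intro F hF hA x hxN hx
  have hxK : ⌈(T / ε) ^ 2⌉₊ + 1 ≤ x := by
    by_contra hcon
    have h1 : x ≤ ⌈(T / ε) ^ 2⌉₊ + 1 := by omega
    have h2 := Nat.pow_le_pow_left h1 (2 ^ b)
    omega
  have hx1 : 1 ≤ x := by omega
  have hxr : (T / ε) ^ 2 ≤ x := by
    have h1 := Nat.le_ceil ((T / ε) ^ 2)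
    have h2 : ((⌈(T / ε) ^ 2⌉₊ + 1 : ℕ) : ℝ) ≤ x := by exact_mod_cast hxK
    push_cast at h2
    linarith
  have hx0 : (0 : ℝ) ≤ x := Nat.cast_nonneg x
  have hTx : T ≤ ε * Real.sqrt x := by
    have h1 : T / ε ≤ Real.sqrt x := Real.le_sqrt_of_sq_le hxr
    rw [div_le_iff₀ hε] at h1
    linarith
  rw [abel F (fun n => ∏ h ∈ S, tw (θ h) (n + h)) x]
  refine (norm_sub_le _ _).trans ?_
  have hfirst : ‖(∑ n ∈ Icc 1 x, F n) * ∏ h ∈ S, tw (θ h) (x + h)‖ ≤ x * ε := by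
    rw [norm_mul, norm_phi, mul_one]
    refine hA x hxN (hx.trans ?_)
    exact Nat.pow_le_pow_right hx1 (Nat.pow_le_pow_right (by norm_num) (Nat.le_succ b))
  have hterm : ∀ n ∈ range x, ‖(∑ m ∈ Icc 1 n, F m) *
      ((∏ h ∈ S, tw (θ h) (n + 1 + h)) - ∏ h ∈ S, tw (θ h) (n + h))‖ ≤
      ε * T + if 1 ≤ n ∧ n ≤ Nat.sqrt x then T else 0 := by
    intro n hn
    have hnx : n < x := Finset.mem_range.1 hn
    have hεT : 0 ≤ ε * T := by positivity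
    rcases Nat.eq_zero_or_pos n with h0 | h0
    · subst h0
      simp only [Finset.Icc_eq_empty_of_lt Nat.zero_lt_one, Finset.sum_empty, zero_mul, norm_zero]
      split_ifs
      · positivity
      · linarith
    · have hn0 : (0 : ℝ) < n := by exact_mod_cast h0
      rw [norm_mul]
      have hd := phi_diff hT h0
      by_cases hc : N ≤ n ^ (2 ^ (b + 1))
      · have h1 := hA n (by omega) hc
        have h2 : ‖∑ m ∈ Icc 1 n, F m‖ *
            ‖(∏ h ∈ S, tw (θ h) (n + 1 + h)) - ∏ h ∈ S, tw (θ h) (n + h)‖ ≤ (n * ε) * (T / n) :=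
          mul_le_mul h1 hd (norm_nonneg _) (by positivity)
        have h3 : (n * ε) * (T / n) = ε * T := by
          field_simp
        rw [h3] at h2
        refine h2.trans ?_
        split_ifs <;> linarith
      · have h1 := norm_A F hF n
        have h2 : ‖∑ m ∈ Icc 1 n, F m‖ *
            ‖(∏ h ∈ S, tw (θ h) (n + 1 + h)) - ∏ h ∈ S, tw (θ h) (n + h)‖ ≤ n * (T / n) :=
          mul_le_mul h1 hd (norm_nonneg _) (by positivity)
        have h3 : (n : ℝ) * (T / n) = T := by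
          field_simp
        rw [h3] at h2
        have h4 : n ≤ Nat.sqrt x := by
          rw [Nat.le_sqrt]
          push Not at hc
          have h5 : n ^ (2 ^ (b + 1)) < x ^ (2 ^ b) := lt_of_lt_of_le hc hx
          rw [pow_succ, mul_comm (2 ^ b) 2, pow_mul] at h5
          have h6 : n ^ 2 < x := lt_of_pow_lt_pow_left₀ _ (Nat.zero_le _) h5
          have h7 : n ^ 2 = n * n := sq n
          omega
        rw [if_pos ⟨h0, h4⟩]
        linarith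
  have hsum : ‖∑ n ∈ range x, (∑ m ∈ Icc 1 n, F m) *
      ((∏ h ∈ S, tw (θ h) (n + 1 + h)) - ∏ h ∈ S, tw (θ h) (n + h))‖ ≤ x * (ε * T) + x * ε := by
    refine (norm_sum_le _ _).trans ((Finset.sum_le_sum hterm).trans ?_)
    rw [Finset.sum_add_distrib, Finset.sum_const, Finset.card_range, nsmul_eq_mul]
    have h1 : ∑ n ∈ range x, (if 1 ≤ n ∧ n ≤ Nat.sqrt x then T else 0) ≤ Nat.sqrt x * T := by
      rw [← Finset.sum_filter, Finset.sum_const, nsmul_eq_mul]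
      refine mul_le_mul_of_nonneg_right ?_ hT0
      have h2 : (range x).filter (fun n => 1 ≤ n ∧ n ≤ Nat.sqrt x) ⊆ Icc 1 (Nat.sqrt x) := by
        intro n hn
        exact Finset.mem_Icc.2 (Finset.mem_filter.1 hn).2
      have h3 := Finset.card_le_card h2
      rw [Nat.card_Icc, Nat.add_sub_cancel] at h3
      exact_mod_cast h3
    have h2 : (Nat.sqrt x : ℝ) ≤ Real.sqrt x := Real.nat_sqrt_le_real_sqrt
    have h3 : (Nat.sqrt x : ℝ) * T ≤ x * ε := by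
      calc (Nat.sqrt x : ℝ) * T ≤ Real.sqrt x * (ε * Real.sqrt x) :=
            mul_le_mul h2 hTx hT0 (Real.sqrt_nonneg _)
        _ = (Real.sqrt x * Real.sqrt x) * ε := by ring
        _ = x * ε := by rw [Real.mul_self_sqrt hx0]
    linarith
  calc ‖(∑ n ∈ Icc 1 x, F n) * ∏ h ∈ S, tw (θ h) (x + h)‖ + ‖∑ n ∈ range x, (∑ m ∈ Icc 1 n, F m) *
      ((∏ h ∈ S, tw (θ h) (n + 1 + h)) - ∏ h ∈ S, tw (θ h) (n + h))‖
      ≤ x * ε + (x * (ε * T) + x * ε) := add_le_add hfirst hsum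
    _ = x * (ε * (2 + T)) := by ring

end Pool.Agent.Lib.P4a7640W
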