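import Mathlib
import Pool.Agent.Lib.P4a7640W.Base
import Pool.Agent.Lib.P4a7640W.TwB
import Pool.Agent.Lib.P4a7640W.CorrU
import Pool.Agent.Lib.P4a7640W.DivT
import Pool.Agent.Lib.P4a7640W.NatTw
import Pool.Agent.Lib.P4a7640C.MonoS

/-!
# Correlation of a twisted monomial
-/

open Finset Filter Topology
open Pool.Agent.Lib.P4a7640 Pool.Agent.Lib.P4a7640C

namespace Pool.Agent.Lib.P4a7640W

open Pool.Agent.Lib.P4a7640C.MonoSAux

theorem monoT_eq {c : ℕ} (u : ℕ → ℤˣ) {q : ℕ} (hq : 0 < q) (χ : DirichletCharacter ℂ q) (t : ℝ)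
    {N : ℕ} (hN : q ^ c ≤ N) {a b : ℕ} (τ : Fin a → ℕ) (τ' : Fin b → ℕ) (n : ℕ) :
    monoT c u χ t N τ τ' n = ∏ h ∈ univ.image τ ∪ univ.image τ',
      vt c (fun n => u n ^ (mu τ h + mu τ' h)) (χ ^ mu τ h * χ⁻¹ ^ mu τ' h)
        (((mu τ h : ℝ) - mu τ' h) * t) N (n + h) := by
  unfold monoT
  have h1 := prod_mu τ (univ.image τ ∪ univ.image τ')
    (fun i => Finset.mem_union_left _ (Finset.mem_image_of_mem τ (Finset.mem_univ i)))
    (fun h => vt c u χ t N (n + h))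
  have h2 := prod_mu τ' (univ.image τ ∪ univ.image τ')
    (fun i => Finset.mem_union_right _ (Finset.mem_image_of_mem τ' (Finset.mem_univ i)))
    (fun h => (starRingEnd ℂ) (vt c u χ t N (n + h)))
  rw [h1, h2, ← Finset.prod_mul_distrib]
  exact Finset.prod_congr rfl fun h _ => vt_pow u hq χ t hN (mu τ h) (mu τ' h) (n + h)

namespace MonoTAux

theorem sum_mu {a : ℕ} (τ : Fin a → ℕ) (S : Finset ℕ) : ∑ h ∈ S, mu τ h ≤ a := by
  have h1 : ∑ h ∈ S, mu τ h ≤ ((univ : Finset (Fin a))).card := by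
    unfold mu
    rw [← Finset.card_biUnion]
    · exact Finset.card_le_card (Finset.subset_univ _)
    · intro x _ y _ hxy
      rw [Function.onFun, Finset.disjoint_left]
      intro i h2 h3
      rw [Finset.mem_filter] at h2 h3
      exact hxy (h2.2.symm.trans h3.2)
  simpa using h1

theorem DU_zero (u : ℕ → ℤˣ) {q : ℕ} (ψ : DirichletCharacter ℂ q) (N : ℕ) :
    DU (fun n => sgC (u n) * tw (-0) n) ψ 0 N = DD u ψ 0 N := by
  unfold DU DD
  refine Finset.sum_congr rfl fun p _ => ?_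
  simp only [neg_zero, tw_zero, mul_one]
  rfl

theorem far {u : ℕ → ℤˣ} (hap : Aperiodic u) {q : ℕ} (hq : 0 < q) (ψ : DirichletCharacter ℂ q)
    (θ : ℝ) : Tendsto (fun N => DU (fun n => sgC (u n) * tw (-θ) n) ψ 0 N) atTop atTop := by
  by_cases h0 : θ = 0
  · subst h0
    simp only [DU_zero]
    exact hap q hq ψ
  · exact div_twist u hq ψ (neg_ne_zero.2 h0)

theorem theta_sum {a b K : ℕ} (habK : a + b ≤ K) (τ : Fin a → ℕ) (τ' : Fin b → ℕ) (S : Finset ℕ)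
    (t : ℝ) : ∑ h ∈ S, |((mu τ h : ℝ) - mu τ' h) * t| ≤ K * |t| := by
  have h1 : ∀ h ∈ S, |((mu τ h : ℝ) - mu τ' h) * t| ≤ ((mu τ h : ℝ) + mu τ' h) * |t| := by
    intro h _
    rw [abs_mul]
    refine mul_le_mul_of_nonneg_right ?_ (abs_nonneg t)
    have h2 : (0:ℝ) ≤ mu τ h := Nat.cast_nonneg _
    have h3 : (0:ℝ) ≤ mu τ' h := Nat.cast_nonneg _
    rw [abs_le]
    constructor <;> linarith
  refine (Finset.sum_le_sum h1).trans ?_
  rw [← Finset.sum_mul, Finset.sum_add_distrib]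
  refine mul_le_mul_of_nonneg_right ?_ (abs_nonneg t)
  have h4 := sum_mu τ S
  have h5 := sum_mu τ' S
  have h6 : ∑ h ∈ S, mu τ h + ∑ h ∈ S, mu τ' h ≤ K := by omega
  exact_mod_cast h6

theorem U_odd (u : ℕ → ℤˣ) {k : ℕ} (hk : Odd k) (θ : ℝ) :
    (fun n => sgC (u n ^ k) * tw (-θ) n) = fun n => sgC (u n) * tw (-θ) n := by
  funext n
  have h4 := congrFun (pow_odd u hk) n
  have h5 : u n ^ k = u n := h4
  rw [h5]

end MonoTAux

open MonoTAux

theorem monoT_small : ∃ A : ℕ, 0 < A ∧ ∀ u : ℕ → ℤˣ, MultS u → Aperiodic u → ∀ q : ℕ, 0 < q →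
    ∀ (χ : DirichletCharacter ℂ q) (t : ℝ) (a b : ℕ) (τ : Fin a → ℕ) (τ' : Fin b → ℕ),
    (∃ h, Odd (mu τ h + mu τ' h)) → ∀ K b' c' : ℕ, 1 ≤ K → a + b ≤ K → 2 + K * |t| ≤ 4 ^ K →
      A * K * 2 ^ b' ≤ 2 ^ c' →
      ∀ᶠ N : ℕ in atTop, ∀ x ≤ N, N ≤ x ^ (2 ^ b') →
        ‖∑ n ∈ Icc 1 x, monoT (2 ^ c') u χ t N τ τ' n‖ ≤ x * (1 / 4) ^ K := by
  obtain ⟨A, hA, hcorr⟩ := corrU
  refine ⟨4 * A, by omega, ?_⟩
  intro u hu hap q hq χ t a b τ τ' hodd K b' c' hK habK htK hAK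
  have hcard : (univ.image τ ∪ univ.image τ').card ≤ 2 * K := by
    refine (Finset.card_union_le _ _).trans (le_trans (add_le_add Finset.card_image_le
      Finset.card_image_le) ?_)
    have : (univ : Finset (Fin a)).card + (univ : Finset (Fin b)).card ≤ K := by simpa using habK
    omega
  have hfar : ∃ h ∈ univ.image τ ∪ univ.image τ', Tendsto (fun N =>
      DU (fun n => sgC (u n ^ (mu τ h + mu τ' h)) * tw (-(((mu τ h : ℝ) - mu τ' h) * t)) n)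
        (χ ^ mu τ h * χ⁻¹ ^ mu τ' h) 0 N) atTop atTop := by
    obtain ⟨h, hh⟩ := hodd
    refine ⟨h, ?_, ?_⟩
    · by_cases h0 : mu τ h = 0
      · have h1 : mu τ' h ≠ 0 := by
          intro h2
          rw [h0, h2] at hh
          exact absurd hh (by decide)
        exact Finset.mem_union_right _ (mem_of_mu h1)
      · exact Finset.mem_union_left _ (mem_of_mu h0)
    · rw [U_odd u hh]
      exact far hap hq _ _
  have hAK2 : A * (2 * K) * 2 ^ (b' + 1) ≤ 2 ^ c' := by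
    refine le_trans (le_of_eq ?_) hAK
    rw [pow_succ]
    ring
  have hmul : ∀ h ∈ univ.image τ ∪ univ.image τ', MulC (fun n =>
      sgC (u n ^ (mu τ h + mu τ' h)) * tw (-(((mu τ h : ℝ) - mu τ' h) * t)) n) := fun h _ =>
    mulC_U (u := fun n => u n ^ (mu τ h + mu τ' h)) (multS_pow hu (mu τ h + mu τ' h))
      (-(((mu τ h : ℝ) - mu τ' h) * t))
  have hnor : ∀ h n, ‖sgC (u n ^ (mu τ h + mu τ' h)) *
      tw (-(((mu τ h : ℝ) - mu τ' h) * t)) n‖ = 1 := fun h n =>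
    norm_U (fun n => u n ^ (mu τ h + mu τ' h)) (-(((mu τ h : ℝ) - mu τ' h) * t)) n
  have hev := hcorr q hq (univ.image τ ∪ univ.image τ')
    (fun h n => sgC (u n ^ (mu τ h + mu τ' h)) * tw (-(((mu τ h : ℝ) - mu τ' h) * t)) n)
    (fun h => χ ^ mu τ h * χ⁻¹ ^ mu τ' h)
    hmul hnor hfar (2 * K) (b' + 1) c' (by omega) hcard hAK2
  have hε : (0:ℝ) < (1 / 4) ^ (2 * K) := by positivity
  have htw := nat_tw (univ.image τ ∪ univ.image τ') (fun h => ((mu τ h : ℝ) - mu τ' h) * t)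
    (theta_sum habK τ τ' _ t) hε b'
  filter_upwards [hev, htw, eventually_ge_atTop (q ^ 2 ^ c')] with N h1 h2 hN x hx hNx
  have h3 : ∑ n ∈ Icc 1 x, monoT (2 ^ c') u χ t N τ τ' n =
      ∑ n ∈ Icc 1 x, (∏ h ∈ univ.image τ ∪ univ.image τ',
        vU (2 ^ c') (fun n => sgC (u n ^ (mu τ h + mu τ' h)) *
          tw (-(((mu τ h : ℝ) - mu τ' h) * t)) n) (χ ^ mu τ h * χ⁻¹ ^ mu τ' h) N (n + h)) *
        ∏ h ∈ univ.image τ ∪ univ.image τ', tw (((mu τ h : ℝ) - mu τ' h) * t) (n + h) := by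
    refine Finset.sum_congr rfl fun n _ => ?_
    rw [monoT_eq u hq χ t hN τ τ' n, ← Finset.prod_mul_distrib]
    exact Finset.prod_congr rfl fun h _ => vt_eq (2 ^ c') (fun n => u n ^ (mu τ h + mu τ' h))
      (χ ^ mu τ h * χ⁻¹ ^ mu τ' h) (((mu τ h : ℝ) - mu τ' h) * t) N (n + h)
  rw [h3]
  have h4 := h2 (fun n => ∏ h ∈ univ.image τ ∪ univ.image τ',
        vU (2 ^ c') (fun n => sgC (u n ^ (mu τ h + mu τ' h)) *
          tw (-(((mu τ h : ℝ) - mu τ' h) * t)) n) (χ ^ mu τ h * χ⁻¹ ^ mu τ' h) N (n + h))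
    (fun n => by
      rw [norm_prod]
      exact Finset.prod_le_one (fun h _ => norm_nonneg _)
        (fun h hh => (vU_mulC (2 ^ c') (hmul h hh) (χ ^ mu τ h * χ⁻¹ ^ mu τ' h) N).2.2 (n + h)))
    (fun y hy hNy => h1 y hy hNy) x hx hNx
  refine h4.trans ?_
  refine mul_le_mul_of_nonneg_left ?_ (Nat.cast_nonneg x)
  have h5 : (1 / 4 : ℝ) ^ (2 * K) * (2 + K * |t|) ≤ (1 / 4 : ℝ) ^ (2 * K) * 4 ^ K :=
    mul_le_mul_of_nonneg_left htK hε.le
  refine h5.trans (le_of_eq ?_)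
  have h6 : (1 / 4 : ℝ) ^ K * 4 ^ K = 1 := by
    rw [← mul_pow]
    norm_num
  rw [two_mul, pow_add, mul_assoc, h6, mul_one]

end Pool.Agent.Lib.P4a7640W
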