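import Mathlib
import Pool.Agent.Lib.P4a7640W.Base
import Pool.Agent.Lib.P4a7640W.MonoT
import Pool.Agent.Lib.P4a7640C.AbelN
import Pool.Agent.Lib.P4a7640C.MomZ

/-!
# Moments of the twisted linear forms
-/

open Finset Filter Topology
open Pool.Agent.Lib.P4a7640 Pool.Agent.Lib.P4a7640C

namespace Pool.Agent.Lib.P4a7640W

namespace MomTAux

open Pool.Agent.Lib.P4a7640C.MomZAux

theorem norm_monoT_le (c : ℕ) (u : ℕ → ℤˣ) {q : ℕ} (χ : DirichletCharacter ℂ q) (tt : ℝ) (N : ℕ) {a b : ℕ}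
    (t : Fin a → ℕ) (t' : Fin b → ℕ) (n : ℕ) : ‖monoT c u χ tt N t t' n‖ ≤ 1 := by
  unfold monoT
  rw [norm_mul, norm_prod, norm_prod]
  have h1 : ∏ i, ‖vt c u χ tt N (n + t i)‖ ≤ 1 :=
    Finset.prod_le_one (fun _ _ => norm_nonneg _) (fun _ _ => norm_vt_le _ _ _ _ _ _)
  have h2 : ∏ i, ‖(starRingEnd ℂ) (vt c u χ tt N (n + t' i))‖ ≤ 1 :=
    Finset.prod_le_one (fun _ _ => norm_nonneg _)
      (fun _ _ => by rw [Complex.norm_conj]; exact norm_vt_le _ _ _ _ _ _)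
  have h3 : 0 ≤ ∏ i, ‖(starRingEnd ℂ) (vt c u χ tt N (n + t' i))‖ :=
    Finset.prod_nonneg fun _ _ => norm_nonneg _
  calc _ ≤ 1 * 1 := mul_le_mul h1 h2 h3 zero_le_one
    _ = 1 := one_mul 1

theorem expandT (c : ℕ) (u : ℕ → ℤˣ) {q : ℕ} (χ : DirichletCharacter ℂ q) (tt : ℝ) (N : ℕ)
    (J : Finset ℕ) (x : ℕ → ℝ) (s t n : ℕ) :
    ZT c u χ tt N J x n ^ s * (starRingEnd ℂ) (ZT c u χ tt N J x n) ^ t =
      ∑ p ∈ PP2 J s t, (cf x p : ℂ) * monoT c u χ tt N p.1 p.2 n := by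
  have h1 : ZT c u χ tt N J x n ^ s = ∑ τ ∈ Fintype.piFinset (fun _ : Fin s => J),
      ∏ i, ((x (τ i) : ℂ) * vt c u χ tt N (n + τ i)) := by
    unfold ZT
    rw [Finset.sum_pow']
  have h2 : (starRingEnd ℂ) (ZT c u χ tt N J x n) ^ t =
      ∑ τ ∈ Fintype.piFinset (fun _ : Fin t => J),
      ∏ i, ((x (τ i) : ℂ) * (starRingEnd ℂ) (vt c u χ tt N (n + τ i))) := by
    unfold ZT
    rw [map_sum]
    have h3 : ∀ j ∈ J, (starRingEnd ℂ) ((x j : ℂ) * vt c u χ tt N (n + j)) =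
        (x j : ℂ) * (starRingEnd ℂ) (vt c u χ tt N (n + j)) := by
      intro j _
      rw [map_mul, Complex.conj_ofReal]
    rw [Finset.sum_congr rfl h3, Finset.sum_pow']
  rw [h1, h2, Finset.sum_mul_sum]
  unfold PP2
  rw [Finset.sum_product]
  refine Finset.sum_congr rfl fun τ _ => Finset.sum_congr rfl fun τ' _ => ?_
  rw [Finset.prod_mul_distrib, Finset.prod_mul_distrib]
  unfold cf monoT
  push_cast
  ring

end MomTAux

open MomTAux Pool.Agent.Lib.P4a7640C.MomZAux in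
theorem momT : ∃ A : ℕ, 0 < A ∧ ∀ u : ℕ → ℤˣ, MultS u → Aperiodic u → ∀ q : ℕ, 0 < q →
    ∀ (χ : DirichletCharacter ℂ q) (tt : ℝ) (J : Finset ℕ) (s t K b c : ℕ), 1 ≤ K → s + t ≤ K →
    2 + K * |tt| ≤ 4 ^ K →
    A * K * 2 ^ b ≤ 2 ^ c → ∀ᶠ N : ℕ in atTop, ∀ x : ℕ → ℝ, (∀ j, |x j| ≤ 1) →
      ∀ a : ℕ → ℝ, (∀ n, 0 ≤ a n ∧ a n ≤ 1) → (∀ n, a (n + 1) ≤ a n) →
      ‖∑ n ∈ Icc 1 N, ((io (2 ^ b) N n * a n : ℝ) : ℂ) *
        (ZT (2 ^ c) u χ tt N J x n ^ s * (starRingEnd ℂ) (ZT (2 ^ c) u χ tt N J x n) ^ t) / n‖ ≤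
      ((Tev J (s + t) : ℝ) + 4 * (J.card : ℝ) ^ (s + t) * (1 / 4) ^ K) * HH N := by
  classical
  obtain ⟨A, hA, hms⟩ := monoT_small
  refine ⟨A, hA, ?_⟩
  intro u hu hap q hq χ tt J s t K b c hK hst htK hAK
  have hall : ∀ᶠ N : ℕ in atTop, ∀ p ∈ PP2 J s t, (¬ ∀ h ∈ J, Even (mu p.1 h + mu p.2 h)) →
      ∀ x ≤ N, N ≤ x ^ (2 ^ b) →
        ‖∑ n ∈ Icc 1 x, monoT (2 ^ c) u χ tt N p.1 p.2 n‖ ≤ x * (1 / 4) ^ K := by
    rw [eventually_all_finset]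
    intro p _
    by_cases hp : ∀ h ∈ J, Even (mu p.1 h + mu p.2 h)
    · exact Eventually.of_forall fun N h => absurd hp h
    · have hodd : ∃ h, Odd (mu p.1 h + mu p.2 h) := by
        push Not at hp
        obtain ⟨h, _, hh⟩ := hp
        exact ⟨h, Nat.not_even_iff_odd.1 hh⟩
      filter_upwards [hms u hu hap q hq χ tt s t p.1 p.2 hodd K b c hK hst htK hAK] with N hN _
      exact hN
  have hε : (0:ℝ) < (1 / 4) ^ K := by positivity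
  filter_upwards [hall, eventually_HH (1 + 1 / (2 * (1 / 4) ^ K)), eventually_ge_atTop 1] with
    N hN hH hN1 x hx a ha hanti
  set W : ℕ → ℂ := fun n => ((io (2 ^ b) N n * a n : ℝ) : ℂ) with hW
  have hWn : ∀ n, ‖W n‖ ≤ 1 := by
    intro n
    show ‖((io (2 ^ b) N n * a n : ℝ) : ℂ)‖ ≤ 1
    rw [Complex.norm_real, Real.norm_eq_abs]
    unfold io
    split_ifs
    · rw [one_mul, abs_of_nonneg (ha n).1]
      exact (ha n).2
    · rw [zero_mul, abs_zero]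
      exact zero_le_one
  have e1 : ∑ n ∈ Icc 1 N, W n *
        (ZT (2 ^ c) u χ tt N J x n ^ s * (starRingEnd ℂ) (ZT (2 ^ c) u χ tt N J x n) ^ t) / n =
      ∑ p ∈ PP2 J s t, (cf x p : ℂ) * ∑ n ∈ Icc 1 N, W n * monoT (2 ^ c) u χ tt N p.1 p.2 n / n := by
    have e2 : ∀ n ∈ Icc 1 N, W n *
        (ZT (2 ^ c) u χ tt N J x n ^ s * (starRingEnd ℂ) (ZT (2 ^ c) u χ tt N J x n) ^ t) / n =
        ∑ p ∈ PP2 J s t, (cf x p : ℂ) * (W n * monoT (2 ^ c) u χ tt N p.1 p.2 n / n) := by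
      intro n _
      rw [expandT, Finset.mul_sum, Finset.sum_div]
      refine Finset.sum_congr rfl fun p _ => ?_
      ring
    rw [Finset.sum_congr rfl e2, Finset.sum_comm]
    refine Finset.sum_congr rfl fun p _ => ?_
    rw [Finset.mul_sum]
  have hHH0 : 0 ≤ HH N := by
    unfold HH
    exact Finset.sum_nonneg fun n _ => by positivity
  have b1 : ∀ p : (Fin s → ℕ) × (Fin t → ℕ),
      ‖∑ n ∈ Icc 1 N, W n * monoT (2 ^ c) u χ tt N p.1 p.2 n / n‖ ≤ HH N := by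
    intro p
    refine (norm_sum_le _ _).trans ?_
    unfold HH
    refine Finset.sum_le_sum fun n hn => ?_
    rw [norm_div, norm_mul, Complex.norm_natCast]
    refine div_le_div_of_nonneg_right ?_ (Nat.cast_nonneg n)
    calc ‖W n‖ * ‖monoT (2 ^ c) u χ tt N p.1 p.2 n‖ ≤ 1 * 1 :=
          mul_le_mul (hWn n) (norm_monoT_le _ _ _ _ _ _ _ _) (norm_nonneg _) zero_le_one
      _ = 1 := one_mul 1
  have b2 : ∀ p ∈ PP2 J s t, (¬ ∀ h ∈ J, Even (mu p.1 h + mu p.2 h)) →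
      ‖∑ n ∈ Icc 1 N, W n * monoT (2 ^ c) u χ tt N p.1 p.2 n / n‖ ≤ 4 * (1 / 4) ^ K * HH N := by
    intro p hp hp2
    have h1 := abelN (B := 2 ^ b) hN1 Nat.one_le_two_pow
      (fun n => norm_monoT_le (2 ^ c) u χ tt N p.1 p.2 n) hε.le
      (fun x hx1 hx2 => hN p hp hp2 x hx1 hx2) ha hanti
    refine h1.trans ?_
    have h2 : (1 + 1 / (2 * (1 / 4) ^ K)) * (2 * (1 / 4 : ℝ) ^ K) ≤
        HH N * (2 * (1 / 4 : ℝ) ^ K) := mul_le_mul_of_nonneg_right hH (by positivity)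
    have h3 : (1 + 1 / (2 * (1 / 4) ^ K)) * (2 * (1 / 4 : ℝ) ^ K) = 2 * (1 / 4 : ℝ) ^ K + 1 := by
      field_simp
    rw [h3] at h2
    linarith
  show ‖∑ n ∈ Icc 1 N, W n *
        (ZT (2 ^ c) u χ tt N J x n ^ s * (starRingEnd ℂ) (ZT (2 ^ c) u χ tt N J x n) ^ t) / n‖ ≤ _
  rw [e1]
  have b3 : ∀ p ∈ PP2 J s t,
      ‖(cf x p : ℂ) * ∑ n ∈ Icc 1 N, W n * monoT (2 ^ c) u χ tt N p.1 p.2 n / n‖ ≤
      (if ∀ h ∈ J, Even (mu p.1 h + mu p.2 h) then HH N else 0) + 4 * (1 / 4) ^ K * HH N := by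
    intro p hp
    rw [norm_mul, Complex.norm_real, Real.norm_eq_abs]
    have h1 := cf_le x hx p
    have h2 : |cf x p| * ‖∑ n ∈ Icc 1 N, W n * monoT (2 ^ c) u χ tt N p.1 p.2 n / n‖ ≤
        1 * ‖∑ n ∈ Icc 1 N, W n * monoT (2 ^ c) u χ tt N p.1 p.2 n / n‖ :=
      mul_le_mul_of_nonneg_right h1 (norm_nonneg _)
    rw [one_mul] at h2
    refine h2.trans ?_
    have h3 : 0 ≤ 4 * (1 / 4 : ℝ) ^ K * HH N := by positivity
    split_ifs with he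
    · have := b1 p
      linarith
    · have := b2 p hp he
      linarith
  refine (norm_sum_le _ _).trans ((Finset.sum_le_sum b3).trans ?_)
  rw [Finset.sum_add_distrib, ← Finset.sum_filter, Finset.sum_const, Finset.sum_const, card_PP2,
    nsmul_eq_mul, nsmul_eq_mul]
  have h4 : ((((PP2 J s t).filter fun p => ∀ h ∈ J, Even (mu p.1 h + mu p.2 h)).card : ℕ) : ℝ) ≤
      (Tev J (s + t) : ℝ) := by exact_mod_cast card_even J s t
  have h5 := mul_le_mul_of_nonneg_right h4 hHH0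
  push_cast
  nlinarith

end Pool.Agent.Lib.P4a7640W
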