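import Mathlib
import Pool.Agent.Lib.P4a7640W.Base
import Pool.Agent.Lib.P4a7640W.TwB
import Pool.Agent.Lib.P4a7640C.PatD

/-!
# Decomposition according to the patterns, twisted
-/

open Finset Filter Topology
open Pool.Agent.Lib.P4a7640 Pool.Agent.Lib.P4a7640E Pool.Agent.Lib.P4a7640C

namespace Pool.Agent.Lib.P4a7640W

open Pool.Agent.Lib.P4a7640C.PatDAux

open Classical in
theorem pt_boundT (f g : ℕ → ℤˣ) (l : Filter ℕ) (J : Finset ℕ) (c : ℕ) (u : ℕ → ℤˣ) {q : ℕ}
    (χ : DirichletCharacter ℂ q) (t : ℝ) (N r n : ℕ) :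
    ‖∑ j ∈ J, sgC (f (n + j)) * sgC (g (n + j)) * (starRingEnd ℂ) (vt c u χ t N (n + j))‖ ^ r ≤
      ∑ x ∈ patJ f l J, ∑ y ∈ patJ g l J, ‖ZT c u χ t N J (xt x y) n‖ ^ r +
      ((if BadP f l J n then 1 else 0) + (if BadP g l J n then 1 else 0)) * (J.card : ℝ) ^ r := by
  have hsum : 0 ≤ ∑ x ∈ patJ f l J, ∑ y ∈ patJ g l J, ‖ZT c u χ t N J (xt x y) n‖ ^ r :=
    Finset.sum_nonneg fun x _ => Finset.sum_nonneg fun y _ => by positivity
  have hJ : (0 : ℝ) ≤ (J.card : ℝ) ^ r := by positivity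
  by_cases hf : BadP f l J n ∨ BadP g l J n
  · have h1 : ‖∑ j ∈ J, sgC (f (n + j)) * sgC (g (n + j)) *
        (starRingEnd ℂ) (vt c u χ t N (n + j))‖ ≤ J.card := by
      refine (norm_sum_le _ _).trans ?_
      have h2 : ∀ j ∈ J, ‖sgC (f (n + j)) * sgC (g (n + j)) *
          (starRingEnd ℂ) (vt c u χ t N (n + j))‖ ≤ 1 := by
        intro j _
        rw [norm_mul, norm_mul, norm_sgC, norm_sgC, one_mul, one_mul, RCLike.norm_conj]
        exact norm_vt_le c u χ t N (n + j)
      refine (Finset.sum_le_sum h2).trans ?_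
      rw [Finset.sum_const, nsmul_eq_mul, mul_one]
    have h3 : ‖∑ j ∈ J, sgC (f (n + j)) * sgC (g (n + j)) *
        (starRingEnd ℂ) (vt c u χ t N (n + j))‖ ^ r ≤ (J.card : ℝ) ^ r :=
      pow_le_pow_left₀ (norm_nonneg _) h1 r
    have h4 : (1 : ℝ) ≤ (if BadP f l J n then 1 else 0) + (if BadP g l J n then 1 else 0) := by
      rcases hf with hf | hf
      · rw [if_pos hf]
        split_ifs <;> norm_num
      · rw [if_pos hf]
        split_ifs <;> norm_num
    calc ‖∑ j ∈ J, sgC (f (n + j)) * sgC (g (n + j)) *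
        (starRingEnd ℂ) (vt c u χ t N (n + j))‖ ^ r ≤ 1 * (J.card : ℝ) ^ r := by
          rw [one_mul]; exact h3
      _ ≤ ((if BadP f l J n then 1 else 0) + (if BadP g l J n then 1 else 0)) *
          (J.card : ℝ) ^ r := mul_le_mul_of_nonneg_right h4 hJ
      _ ≤ _ := le_add_of_nonneg_left hsum
  · push Not at hf
    obtain ⟨hf, hg⟩ := hf
    have hf' : pat f J n ∈ patJ f l J := by
      by_contra h
      exact hf h
    have hg' : pat g J n ∈ patJ g l J := by
      by_contra h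
      exact hg h
    have h1 : ‖∑ j ∈ J, sgC (f (n + j)) * sgC (g (n + j)) *
        (starRingEnd ℂ) (vt c u χ t N (n + j))‖ = ‖ZT c u χ t N J (xt (pat f J n) (pat g J n)) n‖ := by
      rw [← RCLike.norm_conj]
      congr 1
      rw [map_sum]
      unfold ZT
      refine Finset.sum_congr rfl fun j hj => ?_
      rw [map_mul, map_mul, conj_sgC, conj_sgC, Complex.conj_conj]
      congr 1
      unfold xt
      rw [dif_pos hj]
      push_cast
      rw [sg_sgC, sg_sgC]
      rfl
    rw [h1]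
    refine le_trans ?_ (le_add_of_nonneg_right ?_)
    · refine le_trans ?_ (Finset.single_le_sum (f := fun x => ∑ y ∈ patJ g l J,
        ‖ZT c u χ t N J (xt x y) n‖ ^ r) (fun x _ => Finset.sum_nonneg fun y _ => by positivity) hf')
      exact Finset.single_le_sum (f := fun y => ‖ZT c u χ t N J (xt (pat f J n) y) n‖ ^ r)
        (fun y _ => by positivity) hg'
    · refine mul_nonneg ?_ hJ
      split_ifs <;> norm_num

end Pool.Agent.Lib.P4a7640W
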